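import Pool.Agent.Lib.ALL_h5.Approx
import Pool.Agent.Lib.ALL.Defs

/-!
# Local uniformization for every defect: the ring of the decomposition group is a frame

See `b525bf_ALLDEFECT_v2_h21.md`, sections 4.3 and 8.3.
-/

set_option autoImplicit false

open Polynomial

namespace Pool.Agent.ALL5

open Pool.Agent.H15JM (RVal)
open Pool.Agent.LU1 (VPos locv locv_inv locv_nonneg le_locv locv_le locv_mono)
open Pool.Agent.ALL (icl ICl FR)

universe u

variable {k Ω : Type u} [Field k] [Field Ω] [Algebra k Ω] {v : RVal Ω}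

section Bridge

variable {R : Subalgebra k Ω} {F : IntermediateField k Ω} {N : IntermediateField F Ω}

theorem ON_eq : ON R N = icl R (N.restrictScalars k) := by
  ext g
  rw [mem_ON]
  exact ⟨fun h => ⟨h.2, h.1⟩, fun h => ⟨h.2, h.1⟩⟩

theorem CN_eq : CN v R N = ICl v R (N.restrictScalars k) := by
  rw [CN, ICl, ON_eq]

theorem decP_eq (hB : Base v R F) : decP hB N = ALL.decP v R F N := by
  ext σ
  constructor
  · intro h a ha
    have ha' : (a : Ω) ∈ ON R N := mem_ON.2 ⟨ha, a.2⟩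
    exact ⟨(mem_ON.1 (aut_ON hB σ ha')).1, (mem_ON.1 (aut_ON hB σ⁻¹ ha')).1, h a ha'⟩
  · intro h a ha
    exact (h a (mem_ON.1 ha).1).2.2

end Bridge

/-- The maximal ideal. -/
def mR (v : RVal Ω) (R : Subalgebra k Ω) : Submodule k Ω :=
  Submodule.span k {g | g ∈ R ∧ VPos v g}

/-- The first unit coefficient of an equation. -/
theorem pow_mem_of_root {R C : Subalgebra k Ω} (hRC : R ≤ C) (hC : ∀ f ∈ C, v.Ge 0 f)
    (hCloc : ∀ f ∈ C, f ≠ 0 → v f = 0 → f⁻¹ ∈ C) {a : Ω} (ha : a ∈ C) (hv : VPos v a)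
    (P : R[X]) (hPa : eval₂ (algebraMap R Ω) a P = 0) {e : ℕ}
    (h1 : ¬ VPos v ((P.coeff e : R) : Ω)) (h2 : ∀ i < e, VPos v ((P.coeff i : R) : Ω)) :
    a ^ e ∈ mR v R * C.toSubmodule := by
  classical
  set n := P.natDegree with hn
  have hen : e ≤ n := by
    refine le_natDegree_of_ne_zero ?_
    intro h
    apply h1
    rw [h]
    exact Pool.Agent.LU1.VPos.zero
  obtain ⟨h3, h4⟩ := (vpos_or (hC _ (hRC (P.coeff e).2))).resolve_left h1
  have hsum : ∑ i ∈ Finset.range (n + 1), ((P.coeff i : R) : Ω) * a ^ i = 0 := by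
    rw [eval₂_eq_sum_range] at hPa
    exact hPa
  set u : Ω := ∑ i ∈ Finset.range (n + 1 - e), ((P.coeff (e + i) : R) : Ω) * a ^ i with hu
  have hsplit : ∑ i ∈ Finset.range e, ((P.coeff i : R) : Ω) * a ^ i + a ^ e * u = 0 := by
    rw [← hsum, ← Finset.sum_range_add_sum_Ico _ (show e ≤ n + 1 by omega), hu,
      Finset.mul_sum, Finset.sum_Ico_eq_sum_range]
    congr 1
    refine Finset.sum_congr rfl fun i _ => ?_
    rw [pow_add]
    ring
  have huC : u ∈ C := C.sum_mem fun i _ => C.mul_mem (hRC (P.coeff _).2) (C.pow_mem ha _)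
  have huval : VPos v (u - ((P.coeff e : R) : Ω)) := by
    have h5 : n + 1 - e = (n - e) + 1 := by omega
    rw [hu, h5, Finset.sum_range_succ']
    simp only [add_zero, pow_zero, mul_one, add_sub_cancel_right]
    have : ∀ s : Finset ℕ, VPos v (∑ i ∈ s, ((P.coeff (e + (i + 1)) : R) : Ω) * a ^ (i + 1)) := by
      intro s
      induction s using Finset.induction_on with
      | empty => simpa using Pool.Agent.LU1.VPos.zero
      | insert i s hi ih =>
        rw [Finset.sum_insert hi]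
        exact (Pool.Agent.LU1.VPos.mul' (hC _ (hRC (P.coeff _).2))
          (vpos_pow hv (Nat.succ_ne_zero i))).add ih
    exact this _
  have hu0 : u ≠ 0 ∧ v u = 0 := by
    refine (vpos_or (hC _ huC)).resolve_left fun h5 => h1 ?_
    have h6 : ((P.coeff e : R) : Ω) = u - (u - ((P.coeff e : R) : Ω)) := by ring
    rw [h6]
    exact h5.sub huval
  have huinv : u⁻¹ ∈ C := hCloc _ huC hu0.1 hu0.2
  have h7 : a ^ e = ∑ i ∈ Finset.range e, ((P.coeff i : R) : Ω) * (-(a ^ i * u⁻¹)) := by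
    have h8 : a ^ e * u = -∑ i ∈ Finset.range e, ((P.coeff i : R) : Ω) * a ^ i := by
      linear_combination hsplit
    have h9 : a ^ e = (a ^ e * u) * u⁻¹ := by
      rw [mul_assoc, mul_inv_cancel₀ hu0.1, mul_one]
    rw [h9, h8, neg_mul, Finset.sum_mul, ← Finset.sum_neg_distrib]
    refine Finset.sum_congr rfl fun i _ => ?_
    ring
  rw [h7]
  refine Submodule.sum_mem _ fun i hi => Submodule.mul_mem_mul ?_ ?_
  · exact Submodule.subset_span ⟨(P.coeff i).2, h2 i (Finset.mem_range.1 hi)⟩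
  · exact C.neg_mem (C.mul_mem (C.pow_mem ha _) huinv)

section Cosets

variable {R : Subalgebra k Ω} {F : IntermediateField k Ω} {N : IntermediateField F Ω}

/-- Representatives of the cosets of the decomposition group. -/
theorem exists_cosets [FiniteDimensional F N] (H : Subgroup (N ≃ₐ[F] N)) :
    ∃ (κ : Type u) (_ : Fintype κ) (_ : DecidableEq κ) (rep : κ → (N ≃ₐ[F] N)) (o : κ),
      rep o = 1 ∧ (∀ q, q ≠ o → rep q ∉ H) ∧ ∀ σ : N ≃ₐ[F] N, ∃ π : Equiv.Perm κ,
        ∀ a : N, (∀ s ∈ H, s a = a) → ∀ q, σ (rep q a) = rep (π q) a := by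
  classical
  set rep : (N ≃ₐ[F] N) ⧸ H → (N ≃ₐ[F] N) := fun q =>
    if q = QuotientGroup.mk 1 then 1 else q.out with hrep
  have hmk : ∀ q, QuotientGroup.mk (rep q) = q := by
    intro q
    simp only [hrep]
    split_ifs with h
    · exact h.symm
    · exact Quotient.out_eq q
  refine ⟨(N ≃ₐ[F] N) ⧸ H, Fintype.ofFinite _, Classical.decEq _, rep, QuotientGroup.mk 1, ?_,
    ?_, ?_⟩
  · simp [hrep]
  · intro q hq hmem
    apply hq
    rw [← hmk q, eq_comm, QuotientGroup.eq, inv_one, one_mul]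
    exact hmem
  · intro σ
    refine ⟨MulAction.toPerm σ, fun a ha q => ?_⟩
    have hcl : ∀ σ σ' : N ≃ₐ[F] N, (QuotientGroup.mk σ : (N ≃ₐ[F] N) ⧸ H) =
        QuotientGroup.mk σ' → σ a = σ' a := by
      intro σ σ' h
      rw [QuotientGroup.eq] at h
      have h1 := ha _ h
      rw [AlgEquiv.mul_apply] at h1
      have h2 := congrArg σ h1
      rw [← AlgEquiv.mul_apply, mul_inv_cancel, AlgEquiv.one_apply] at h2
      exact h2.symm
    rw [← AlgEquiv.mul_apply]
    apply hcl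
    rw [hmk]
    change _ = σ • q
    conv_rhs => rw [← hmk q]
    rfl

/-- A polynomial over `N` with integral coefficients fixed by the group has coefficients in
`R`. -/
theorem exists_poly (hB : Base v R F) [FiniteDimensional F N] [IsGalois F N] (g : N[X])
    (hint : ∀ i, (g.coeff i : Ω) ∈ ON R N) (hfix : ∀ σ : N ≃ₐ[F] N, g.map (σ : N →+* N) = g) :
    ∃ P : R[X], P.natDegree ≤ g.natDegree ∧ (∀ i, ((P.coeff i : R) : Ω) = (g.coeff i : Ω)) ∧
      ∀ b : N, eval₂ (algebraMap R Ω) (b : Ω) P = ((g.eval b : N) : Ω) := by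
  classical
  have hmem : ∀ i, (g.coeff i : Ω) ∈ R := by
    intro i
    have h1 : ∀ σ : N ≃ₐ[F] N, σ (g.coeff i) = g.coeff i := by
      intro σ
      have h2 := congrArg (fun p => p.coeff i) (hfix σ)
      simpa using h2
    have h2 : g.coeff i ∈ Set.range (algebraMap F N) := by
      rw [IsGalois.mem_range_algebraMap_iff_fixed]
      exact h1
    obtain ⟨f, hf⟩ := h2
    refine hB.normal _ ?_ (mem_ON.1 (hint i)).1
    rw [← hf]
    exact f.2
  set P : R[X] := ∑ i ∈ Finset.range (g.natDegree + 1), Polynomial.C ⟨(g.coeff i : Ω), hmem i⟩ *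
    X ^ i with hP
  have hcoeff : ∀ i, ((P.coeff i : R) : Ω) = (g.coeff i : Ω) := by
    intro i
    rw [hP, finsetSum_coeff]
    simp only [coeff_C_mul, coeff_X_pow, mul_ite, mul_one, mul_zero]
    rw [Finset.sum_ite_eq (Finset.range (g.natDegree + 1)) i]
    split_ifs with h
    · rfl
    · rw [Finset.mem_range, not_lt] at h
      rw [coeff_eq_zero_of_natDegree_lt (by omega)]
      rfl
  refine ⟨P, ?_, hcoeff, ?_⟩
  · refine natDegree_sum_le_of_forall_le _ _ fun i hi => ?_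
    exact (natDegree_C_mul_X_pow_le _ _).trans (by
      have := Finset.mem_range.1 hi
      omega)
  · intro b
    rw [eval_eq_sum_range, hP, eval₂_finsetSum, coe_sum_N]
    refine Finset.sum_congr rfl fun i _ => ?_
    rw [eval₂_mul, eval₂_C, eval₂_X_pow]
    push_cast
    rfl

/-- The polynomials with coefficients in `ON`. -/
def PON (R : Subalgebra k Ω) (N : IntermediateField F Ω) : Subring N[X] where
  carrier := {p | ∀ i, (p.coeff i : Ω) ∈ ON R N}
  mul_mem' := by
    intro p q hp hq i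
    rw [coeff_mul, coe_sum_N]
    exact (ON R N).sum_mem fun x _ => (ON R N).mul_mem (hp _) (hq _)
  one_mem' := by
    intro i
    rw [coeff_one]
    split_ifs
    · exact (ON R N).one_mem
    · exact (ON R N).zero_mem
  add_mem' := by
    intro p q hp hq i
    rw [coeff_add]
    exact (ON R N).add_mem (hp i) (hq i)
  zero_mem' := by
    intro i
    rw [coeff_zero]
    exact (ON R N).zero_mem
  neg_mem' := by
    intro p hp i
    rw [coeff_neg]
    exact (ON R N).neg_mem (hp i)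

theorem C_mem_PON {a : N} (ha : (a : Ω) ∈ ON R N) : C a ∈ PON R N := by
  intro i
  rw [coeff_C]
  split_ifs
  · exact ha
  · exact (ON R N).zero_mem

theorem X_mem_PON : (X : N[X]) ∈ PON R N := by
  intro i
  rw [coeff_X]
  split_ifs
  · exact (ON R N).one_mem
  · exact (ON R N).zero_mem

theorem XC_mem_PON {a : N} (ha : (a : Ω) ∈ ON R N) : X - C a ∈ PON R N :=
  sub_mem X_mem_PON (C_mem_PON ha)

/-- The ring of the elements of the localized ring fixed by the decomposition group. -/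
noncomputable def O1 (hB : Base v R F) (N : IntermediateField F Ω) : Subalgebra k Ω :=
  CN v R N ⊓ (Pool.Agent.LU1.fixO F N (decP hB N)).toSubalgebra

theorem mem_O1 {hB : Base v R F} {g : Ω} : g ∈ O1 hB N ↔
    g ∈ CN v R N ∧ ∃ n : N, (n : Ω) = g ∧ ∀ s ∈ decP hB N, s n = n := by
  rw [O1, Algebra.mem_inf]
  exact and_congr Iff.rfl (Pool.Agent.LU1.mem_fixO F N (decP hB N) g)

theorem le_O1 (hB : Base v R F) : R ≤ O1 hB N := by
  intro g hg
  rw [mem_O1]
  refine ⟨le_locv _ (le_ON hB hg), algebraMap F N ⟨g, hB.le g hg⟩, rfl, fun s _ => ?_⟩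
  rw [AlgEquiv.commutes]

theorem O1_nonneg {hB : Base v R F} {g : Ω} (hg : g ∈ O1 hB N) : v.Ge 0 g :=
  CN_nonneg hB (mem_O1.1 hg).1

theorem O1_inv {hB : Base v R F} {g : Ω} (hg : g ∈ O1 hB N) (h0 : g ≠ 0) (hv : v g = 0) :
    g⁻¹ ∈ O1 hB N := by
  rw [mem_O1] at hg ⊢
  obtain ⟨h1, n, rfl, h2⟩ := hg
  refine ⟨locv_inv h1 h0 hv, n⁻¹, rfl, fun s hs => ?_⟩
  rw [map_inv₀, h2 s hs]

/-- The norm trick: an element of `O1` is a fraction of fixed integral elements. -/
theorem exists_fixed_frac {hB : Base v R F} [FiniteDimensional F N] {g : Ω}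
    (hg : g ∈ O1 hB N) : ∃ a w : N, (a : Ω) ∈ ON R N ∧ (w : Ω) ∈ ON R N ∧
      (∀ s ∈ decP hB N, s a = a) ∧ (∀ s ∈ decP hB N, s w = w) ∧ (w : Ω) ≠ 0 ∧ v (w : Ω) = 0 ∧
      g = (a : Ω) / (w : Ω) := by
  classical
  rw [mem_O1] at hg
  obtain ⟨⟨a, ha, s₀, hs₀, hs₀0, hvs₀, hdeq⟩, d, hd, hfix⟩ := hg
  have hs₀N : s₀ ∈ N := (mem_ON.1 hs₀).2
  set s₁ : N := ⟨s₀, hs₀N⟩ with hs₁
  set D := Finset.univ.filter (fun s : N ≃ₐ[F] N => s ∈ decP hB N) with hD
  set w : N := ∏ s ∈ D, s s₁ with hw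
  have h1D : (1 : N ≃ₐ[F] N) ∈ D := by
    rw [hD, Finset.mem_filter]
    exact ⟨Finset.mem_univ _, (decP hB N).one_mem⟩
  have hwON : (w : Ω) ∈ ON R N := by
    rw [hw, coe_prod_N]
    exact (ON R N).prod_mem fun s _ => aut_ON hB s hs₀
  have hwval : (w : Ω) ≠ 0 ∧ v (w : Ω) = 0 := by
    rw [hw, coe_prod_N]
    refine prod_val _ _ fun s hs => ?_
    have hs' : s ∈ decP hB N := by simpa [hD] using hs
    refine (vpos_or (ge_ON hB (aut_ON hB s hs₀))).resolve_left fun h2 => ?_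
    exact not_vpos hs₀0 hvs₀ ((hs' s₁ hs₀).2 h2)
  have hws : ∀ s ∈ decP hB N, s w = w := by
    intro s hs
    rw [hw, map_prod]
    refine Finset.prod_bij (fun t _ => s * t) ?_ ?_ ?_ ?_
    · intro t ht
      simp only [hD, Finset.mem_filter, Finset.mem_univ, true_and] at ht ⊢
      exact (decP hB N).mul_mem hs ht
    · intro t _ t' _ h2
      exact mul_left_cancel h2
    · intro t ht
      simp only [hD, Finset.mem_filter, Finset.mem_univ, true_and] at ht
      refine ⟨s⁻¹ * t, ?_, ?_⟩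
      · simp only [hD, Finset.mem_filter, Finset.mem_univ, true_and]
        exact (decP hB N).mul_mem ((decP hB N).inv_mem hs) ht
      · rw [mul_inv_cancel_left]
    · intro t _
      rfl
  have hdwON : ((d * w : N) : Ω) ∈ ON R N := by
    have h2 : ((d * w : N) : Ω) = a * ∏ s ∈ D.erase 1, (s s₁ : Ω) := by
      rw [hw, ← Finset.mul_prod_erase D _ h1D, AlgEquiv.one_apply]
      push_cast
      rw [hd, hdeq]
      change a / s₀ * (s₀ * _) = _
      rw [← mul_assoc, div_mul_cancel₀ _ hs₀0]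
    rw [h2]
    exact (ON R N).mul_mem ha ((ON R N).prod_mem fun s _ => aut_ON hB s hs₀)
  refine ⟨d * w, w, hdwON, hwON, ?_, hws, hwval.1, hwval.2, ?_⟩
  · intro s hs
    rw [map_mul, hws s hs, hfix s hs]
  · push_cast
    rw [mul_div_assoc, div_self hwval.1, mul_one, hd]

/-- Lagrange interpolation at the element separating the primes: everything about `O1`. -/
theorem O1_main (hB : Base v R F) (hk : ∀ c : k, c ≠ 0 → v (algebraMap k Ω c) = 0)
    (hres : ∀ g : Ω, v.Ge 0 g → ∃ c : k, VPos v (g - algebraMap k Ω c))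
    [FiniteDimensional F N] [IsGalois F N] :
    ∃ b : Ω, b ∈ O1 hB N ∧ (∀ g ∈ O1 hB N, VPos v g → g ∈ mR v R * (O1 hB N).toSubmodule) ∧
      ∀ g ∈ O1 hB N, g ∈ locv v (Algebra.adjoin k ((R : Set Ω) ∪ {b})) := by
  classical
  obtain ⟨b, hbON, hb1, hbs, hbτ⟩ := exists_b (N := N) hB hk hres
  obtain ⟨κ, _, _, rep, o, ho, hrep, hπ⟩ := exists_cosets (N := N) (decP hB N)
  set C := O1 hB N with hC
  have hRC : R ≤ C := le_O1 hB
  have hCnn : ∀ f ∈ C, v.Ge 0 f := fun f hf => O1_nonneg hf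
  have hbC : (b : Ω) ∈ C := mem_O1.2 ⟨le_locv _ hbON, b, rfl, hbs⟩
  have hb1C : (b : Ω) - 1 ∈ C := C.sub_mem hbC C.one_mem
  -- `b - 1`
  have hbm : (b : Ω) - 1 ∈ mR v R * C.toSubmodule := by
    set h : N[X] := ∏ q ∈ Finset.univ.erase o, (X - Polynomial.C (rep q b - 1)) with hh
    set g : N[X] := ∏ q, (X - Polynomial.C (rep q b - 1)) with hg
    have hgh : g = (X - Polynomial.C (b - 1)) * h := by
      rw [hg, hh, ← Finset.mul_prod_erase Finset.univ _ (Finset.mem_univ o), ho,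
        AlgEquiv.one_apply]
    have hmem : ∀ q, ((rep q b - 1 : N) : Ω) ∈ ON R N := by
      intro q
      exact (ON R N).sub_mem (aut_ON hB _ hbON) (ON R N).one_mem
    have hhP : h ∈ PON R N := (PON R N).prod_mem fun q _ => XC_mem_PON (hmem q)
    have hgP : g ∈ PON R N := (PON R N).prod_mem fun q _ => XC_mem_PON (hmem q)
    have hgfix : ∀ σ : N ≃ₐ[F] N, g.map (σ : N →+* N) = g := by
      intro σ
      obtain ⟨π, hπσ⟩ := hπ σ
      rw [hg, Polynomial.map_prod]
      refine Fintype.prod_equiv π _ _ fun q => ?_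
      rw [Polynomial.map_sub, Polynomial.map_X, Polynomial.map_C]
      have h1 : (σ : N →+* N) (rep q b - 1) = rep (π q) b - 1 := by
        rw [map_sub, map_one]
        change σ (rep q b) - 1 = _
        rw [hπσ b hbs q]
      rw [h1]
    obtain ⟨P, -, hPc, hPe⟩ := exists_poly hB g hgP hgfix
    have hroot : eval₂ (algebraMap R Ω) ((b : Ω) - 1) P = 0 := by
      have h1 := hPe (b - 1)
      have h2 : g.eval (b - 1) = 0 := by
        rw [hgh, eval_mul, eval_sub, eval_X, eval_C, sub_self, zero_mul]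
      rw [h2] at h1
      exact h1
    have hh0 : ((h.coeff 0 : N) : Ω) ≠ 0 ∧ v ((h.coeff 0 : N) : Ω) = 0 := by
      have h1 : h.coeff 0 = ∏ q ∈ Finset.univ.erase o, (1 - rep q b) := by
        rw [coeff_zero_eq_eval_zero, hh, eval_prod]
        refine Finset.prod_congr rfl fun q _ => ?_
        rw [eval_sub, eval_X, eval_C]
        ring
      rw [h1, coe_prod_N]
      refine prod_val _ _ fun q hq => ?_
      have h2 := hbτ _ (hrep q (Finset.ne_of_mem_erase hq))
      refine (vpos_or (ge_ON (N := N) hB ?_)).resolve_left fun h3 => ?_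
      · exact (ON R N).sub_mem (ON R N).one_mem (aut_ON hB _ hbON)
      · have h4 : VPos v (1 : Ω) := by
          have h5 : (1 : Ω) = ((1 - rep q b : N) : Ω) + (rep q b : Ω) := by
            push_cast
            ring
          rw [h5]
          exact h3.add h2
        exact not_vpos one_ne_zero v.map_one h4
    have hc0 : VPos v ((P.coeff 0 : R) : Ω) := by
      rw [hPc, hgh, mul_coeff_zero, coeff_sub, coeff_X_zero, coeff_C_zero, zero_sub]
      change VPos v (-((b : Ω) - 1) * ((h.coeff 0 : N) : Ω))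
      exact hb1.neg.mul (ge_ON hB (hhP 0))
    have hc1 : ¬ VPos v ((P.coeff 1 : R) : Ω) := by
      intro h1
      apply not_vpos hh0.1 hh0.2
      have h2 : ((h.coeff 0 : N) : Ω) = ((P.coeff 1 : R) : Ω) +
          ((b : Ω) - 1) * ((h.coeff 1 : N) : Ω) := by
        rw [hPc, hgh, sub_mul, coeff_sub, coeff_X_mul, coeff_C_mul]
        push_cast
        ring
      rw [h2]
      exact h1.add (hb1.mul (ge_ON hB (hhP 1)))
    have h1 := pow_mem_of_root hRC hCnn (fun f hf h0 hv => O1_inv hf h0 hv) hb1C hb1 P hroot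
      (e := 1) hc1 (fun i hi => by
        have : i = 0 := by omega
        rw [this]
        exact hc0)
    rwa [pow_one] at h1
  -- Lagrange
  set w : N := ∏ q ∈ Finset.univ.erase o, (b - rep q b) with hw
  have hlag : ∀ a : N, (a : Ω) ∈ ON R N → (∀ s ∈ decP hB N, s a = a) →
      ∃ P : R[X], eval₂ (algebraMap R Ω) (b : Ω) P = (a : Ω) * (w : Ω) := by
    intro a ha hfix
    set g : N[X] := ∑ q, Polynomial.C (rep q a) *
      ∏ q' ∈ Finset.univ.erase q, (X - Polynomial.C (rep q' b)) with hg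
    have hgP : g ∈ PON R N := (PON R N).sum_mem fun q _ => (PON R N).mul_mem
      (C_mem_PON (aut_ON hB _ ha)) ((PON R N).prod_mem fun q' _ => XC_mem_PON (aut_ON hB _ hbON))
    have hgfix : ∀ σ : N ≃ₐ[F] N, g.map (σ : N →+* N) = g := by
      intro σ
      obtain ⟨π, hπσ⟩ := hπ σ
      rw [hg, Polynomial.map_sum]
      refine Fintype.sum_equiv π _ _ fun q => ?_
      rw [Polynomial.map_mul, Polynomial.map_C, Polynomial.map_prod]
      have h1 : (σ : N →+* N) (rep q a) = rep (π q) a := hπσ a hfix q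
      rw [h1]
      congr 1
      refine Finset.prod_bij (fun q' _ => π q') ?_ ?_ ?_ ?_
      · intro q' hq'
        rw [Finset.mem_erase] at hq' ⊢
        exact ⟨fun h2 => hq'.1 (π.injective h2), Finset.mem_univ _⟩
      · intro q' _ q'' _ h2
        exact π.injective h2
      · intro q' hq'
        refine ⟨π.symm q', ?_, π.apply_symm_apply q'⟩
        rw [Finset.mem_erase] at hq' ⊢
        refine ⟨fun h2 => hq'.1 ?_, Finset.mem_univ _⟩
        rw [← h2, π.apply_symm_apply]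
      · intro q' _
        rw [Polynomial.map_sub, Polynomial.map_X, Polynomial.map_C]
        have h2 : (σ : N →+* N) (rep q' b) = rep (π q') b := hπσ b hbs q'
        rw [h2]
    obtain ⟨P, -, -, hPe⟩ := exists_poly hB g hgP hgfix
    refine ⟨P, ?_⟩
    rw [hPe, hg, eval_finsetSum, Finset.sum_eq_single o]
    · rw [eval_mul, eval_C, ho, AlgEquiv.one_apply, eval_prod, hw]
      push_cast
      congr 1
      refine Finset.prod_congr rfl fun q _ => ?_
      rw [eval_sub, eval_X, eval_C]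
      rfl
    · intro q _ hq
      rw [eval_mul, eval_prod, Finset.prod_eq_zero (i := o), mul_zero]
      · exact Finset.mem_erase.2 ⟨fun h => hq h.symm, Finset.mem_univ _⟩
      · rw [eval_sub, eval_X, eval_C, ho, AlgEquiv.one_apply, sub_self]
    · intro h
      exact absurd (Finset.mem_univ o) h
  have hwval : (w : Ω) ≠ 0 ∧ v (w : Ω) = 0 := by
    rw [hw, coe_prod_N]
    refine prod_val _ _ fun q hq => ?_
    have h2 := hbτ _ (hrep q (Finset.ne_of_mem_erase hq))
    refine (vpos_or (ge_ON (N := N) hB ?_)).resolve_left fun h3 => ?_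
    · exact (ON R N).sub_mem hbON (aut_ON hB _ hbON)
    · have h4 : VPos v (1 : Ω) := by
        have h5 : (1 : Ω) = (((b - rep q b : N) : Ω) + (rep q b : Ω)) - ((b : Ω) - 1) := by
          push_cast
          ring
        rw [h5]
        exact (h3.add h2).sub hb1
      exact not_vpos one_ne_zero v.map_one h4
  have hwC : (w : Ω) ∈ C := by
    rw [hw, coe_prod_N]
    obtain ⟨P, hP⟩ := hlag 1 (ON R N).one_mem (fun s _ => map_one s)
    have h1 : (w : Ω) = eval₂ (algebraMap R Ω) (b : Ω) P := by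
      rw [hP]
      push_cast
      rw [one_mul]
    rw [← coe_prod_N, ← hw, h1, eval₂_eq_sum_range]
    exact C.sum_mem fun i _ => C.mul_mem (hRC (P.coeff i).2) (C.pow_mem hbC i)
  have hwinv : (w : Ω)⁻¹ ∈ C := O1_inv hwC hwval.1 hwval.2
  have hmul : ∀ g ∈ mR v R * C.toSubmodule, ∀ c ∈ C, c * g ∈ mR v R * C.toSubmodule := by
    intro g hg c hc
    have h1 := mul_mem_IC (A := C) (I := mR v R) (M := 1) (g := g) (c := c)
      (by rwa [pow_one]) hc
    rwa [pow_one] at h1
  refine ⟨b, hbC, ?_, ?_⟩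
  · intro g hg hv
    obtain ⟨a, w', ha, hw', hfa, hfw', hw'0, hvw', rfl⟩ := exists_fixed_frac hg
    have hw'C : (w' : Ω) ∈ C := mem_O1.2 ⟨le_locv _ hw', w', rfl, hfw'⟩
    have hw'inv : (w' : Ω)⁻¹ ∈ C := O1_inv hw'C hw'0 hvw'
    have haC : (a : Ω) ∈ C := mem_O1.2 ⟨le_locv _ ha, a, rfl, hfa⟩
    have hva : VPos v (a : Ω) := by
      have h1 : (a : Ω) = ((a : Ω) / (w' : Ω)) * (w' : Ω) := by
        rw [div_mul_cancel₀ _ hw'0]
      rw [h1]
      exact hv.mul (hCnn _ hw'C)
    obtain ⟨P, hP⟩ := hlag a ha hfa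
    -- evaluation at `1`
    set P' : C[X] := P.map (Subalgebra.inclusion hRC : R →ₐ[k] C).toRingHom with hP'
    have hev : ∀ c : C, ((P'.eval c : C) : Ω) = eval₂ (algebraMap R Ω) (c : Ω) P := by
      intro c
      rw [hP', eval_map]
      exact hom_eval₂ P (Subalgebra.inclusion hRC : R →ₐ[k] C).toRingHom (C.val : C →+* Ω) c
    obtain ⟨t, ht⟩ := sub_dvd_eval_sub (⟨(b : Ω), hbC⟩ : C) 1 P'
    have ht' : (a : Ω) * (w : Ω) = eval₂ (algebraMap R Ω) (1 : Ω) P + ((b : Ω) - 1) * (t : Ω) := by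
      have h1 := congrArg (fun z : C => (z : Ω)) ht
      simp only [Subalgebra.coe_sub, Subalgebra.coe_mul, Subalgebra.coe_one] at h1
      rw [hev, hev, Subalgebra.coe_one, hP] at h1
      linear_combination h1
    have hP1 : eval₂ (algebraMap R Ω) (1 : Ω) P ∈ R := by
      rw [eval₂_eq_sum_range]
      exact R.sum_mem fun i _ => R.mul_mem (P.coeff i).2 (R.pow_mem R.one_mem i)
    have hP1v : VPos v (eval₂ (algebraMap R Ω) (1 : Ω) P) := by
      have h1 : eval₂ (algebraMap R Ω) (1 : Ω) P = (a : Ω) * (w : Ω) - ((b : Ω) - 1) * (t : Ω) := by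
        rw [ht']
        ring
      rw [h1]
      exact (hva.mul (hCnn _ hwC)).sub (hb1.mul (hCnn _ t.2))
    have h2 : (a : Ω) / (w' : Ω) = (w : Ω)⁻¹ * (w' : Ω)⁻¹ *
        (eval₂ (algebraMap R Ω) (1 : Ω) P + (t : Ω) * ((b : Ω) - 1)) := by
      rw [mul_comm (t : Ω), ← ht']
      have h3 := hwval.1
      field_simp
    rw [h2]
    refine hmul _ (Submodule.add_mem _ ?_ (hmul _ hbm _ t.2)) _ (C.mul_mem hwinv hw'inv)
    have h3 := Submodule.mul_mem_mul (show eval₂ (algebraMap R Ω) (1 : Ω) P ∈ mR v R from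
      Submodule.subset_span ⟨hP1, hP1v⟩) (show (1 : Ω) ∈ C.toSubmodule from C.one_mem)
    rwa [mul_one] at h3
  · intro g hg
    obtain ⟨a, w', ha, hw', hfa, hfw', hw'0, hvw', rfl⟩ := exists_fixed_frac hg
    set S := Algebra.adjoin k ((R : Set Ω) ∪ {(b : Ω)}) with hS
    have hRS : ∀ f ∈ R, f ∈ S := fun f hf => Algebra.subset_adjoin (Or.inl hf)
    have hbS : (b : Ω) ∈ S := Algebra.subset_adjoin (Or.inr rfl)
    have hev : ∀ P : R[X], eval₂ (algebraMap R Ω) (b : Ω) P ∈ S := by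
      intro P
      rw [eval₂_eq_sum_range]
      exact S.sum_mem fun i _ => S.mul_mem (hRS _ (P.coeff i).2) (S.pow_mem hbS i)
    have hwS : (w : Ω) ∈ S := by
      obtain ⟨P, hP⟩ := hlag 1 (ON R N).one_mem (fun s _ => map_one s)
      have h1 : (w : Ω) = eval₂ (algebraMap R Ω) (b : Ω) P := by
        rw [hP]
        push_cast
        rw [one_mul]
      rw [h1]
      exact hev P
    obtain ⟨P₁, hP₁⟩ := hlag a ha hfa
    obtain ⟨P₂, hP₂⟩ := hlag w' hw' hfw'
    refine ⟨(a : Ω) * (w : Ω), hP₁ ▸ hev P₁, (w' : Ω) * (w : Ω), hP₂ ▸ hev P₂,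
      mul_ne_zero hw'0 hwval.1, ?_, ?_⟩
    · rw [v.map_mul hw'0 hwval.1, hvw', hwval.2, add_zero]
    · rw [mul_div_mul_right _ _ hwval.1]

end Cosets

/-- The elements of the maximal ideal. -/
theorem mem_mR {R : Subalgebra k Ω} (hR : ∀ f ∈ R, v.Ge 0 f) {g : Ω} :
    g ∈ mR v R ↔ g ∈ R ∧ VPos v g := by
  constructor
  · intro hg
    unfold mR at hg
    induction hg using Submodule.span_induction with
    | mem g hg => exact hg
    | zero => exact ⟨R.zero_mem, Pool.Agent.LU1.VPos.zero⟩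
    | add g h _ _ hg hh => exact ⟨R.add_mem hg.1 hh.1, hg.2.add hh.2⟩
    | smul c g _ hg =>
      refine ⟨R.smul_mem hg.1 c, ?_⟩
      rw [Algebra.smul_def]
      exact Pool.Agent.LU1.VPos.mul' (hR _ (R.algebraMap_mem c)) hg.2
  · intro hg
    exact Submodule.subset_span hg

section Frame

variable {D : ℕ}

/-- `γ` can be made smaller. -/
theorem gen_shrink (F : FR k v D) {C : Subalgebra k Ω} (hC : F.R ≤ C) {γ δ : ℝ} (hγ : γ ∈ F.Γ)
    (hδ : δ ∈ F.Γ) (h : δ ≤ γ) {a : Ω} (ha : a ∈ C) : ∃ a' ∈ C, F.χ γ * a = F.χ δ * a' := by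
  refine ⟨F.χ (γ - δ) * a, C.mul_mem (hC (F.χ_mem _ (F.Γ.sub_mem hγ hδ) (by linarith))) ha, ?_⟩
  rw [← mul_assoc, ← F.χ_add δ hδ _ (F.Γ.sub_mem hγ hδ)]
  congr 2
  ring

/-- The decomposition of the elements of `m_R C`. -/
theorem gen_of_mR (F : FR k v D) {C : Subalgebra k Ω} (hC : F.R ≤ C) {f : Ω}
    (hf : f ∈ mR v F.R * C.toSubmodule) :
    ∃ γ ∈ F.Γ, 0 < γ ∧ ∃ a ∈ C, ∃ b : Fin D → Ω, (∀ i, b i ∈ C) ∧
      f = F.χ γ * a + ∑ i, F.y i * b i := by
  refine Submodule.mul_induction_on hf ?_ ?_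
  · intro m hm c hc
    rw [mem_mR F.nonneg] at hm
    obtain ⟨γ, hγ, hγ0, a, ha, b, hb, rfl⟩ := F.gen m hm.1 hm.2
    refine ⟨γ, hγ, hγ0, a * c, C.mul_mem (hC ha) hc, fun i => b i * c,
      fun i => C.mul_mem (hC (hb i)) hc, ?_⟩
    rw [add_mul, Finset.sum_mul, mul_assoc]
    congr 1
    exact Finset.sum_congr rfl fun i _ => by ring
  · rintro f g ⟨γ, hγ, hγ0, a, ha, b, hb, rfl⟩ ⟨δ, hδ, hδ0, c, hc, d, hd, rfl⟩
    have hmin : min γ δ ∈ F.Γ := by
      rcases min_choice γ δ with h | h <;> rw [h] <;> assumption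
    obtain ⟨a', ha', haa'⟩ := gen_shrink F hC hγ hmin (min_le_left γ δ) ha
    obtain ⟨c', hc', hcc'⟩ := gen_shrink F hC hδ hmin (min_le_right γ δ) hc
    refine ⟨min γ δ, hmin, lt_min hγ0 hδ0, a' + c', C.add_mem ha' hc', fun i => b i + d i,
      fun i => C.add_mem (hb i) (hd i), ?_⟩
    rw [haa', hcc', mul_add]
    have h1 : ∑ i, F.y i * (b i + d i) = ∑ i, F.y i * b i + ∑ i, F.y i * d i := by
      rw [← Finset.sum_add_distrib]
      exact Finset.sum_congr rfl fun i _ => by ring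
    rw [h1]
    ring

/-- The ring fixed by the decomposition group is the ring of a frame with the same parameters. -/
theorem exists_F1 (F : FR k v D) {K : IntermediateField k Ω} (hB : Base v F.R K)
    (hk : ∀ c : k, c ≠ 0 → v (algebraMap k Ω c) = 0)
    (hres : ∀ g : Ω, v.Ge 0 g → ∃ c : k, VPos v (g - algebraMap k Ω c))
    (N : IntermediateField K Ω) [FiniteDimensional K N] [IsGalois K N] :
    ∃ F₁ : FR k v D, F.Same F₁ ∧ F₁.R = O1 hB N ∧
      F₁.R ≤ ICl v F.R (N.restrictScalars k) := by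
  classical
  obtain ⟨b, hbC, hgen, hfg⟩ := O1_main (N := N) hB hk hres
  set C := O1 hB N with hC
  have hRC : F.R ≤ C := le_O1 hB
  refine ⟨{
    Γ := F.Γ
    fg := F.fg
    full := F.full
    χ := F.χ
    χ_ne := F.χ_ne
    χ_add := F.χ_add
    χ_val := F.χ_val
    y := F.y
    y_ne := F.y_ne
    y_pos := F.y_pos
    R := C
    nonneg := fun f hf => O1_nonneg hf
    loc := fun f hf h0 hv => O1_inv hf h0 hv
    χ_mem := fun γ hγ h0 => hRC (F.χ_mem γ hγ h0)
    y_mem := fun i => hRC (F.y_mem i)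
    fgen := ?_
    gen := fun f hf hv => gen_of_mR F hRC (hgen f hf hv)
    alg := ?_ }, ⟨rfl, fun γ _ => rfl, rfl, hRC⟩, rfl, ?_⟩
  · obtain ⟨Fs, hFs⟩ := F.fgen
    refine ⟨insert b Fs, ?_⟩
    set L := locv v (Algebra.adjoin k (((insert b Fs : Finset Ω) : Set Ω) ∪
      F.χ '' {γ | γ ∈ F.Γ ∧ 0 ≤ γ})) with hL
    have hLgen : ∀ g ∈ ((insert b Fs : Finset Ω) : Set Ω) ∪ F.χ '' {γ | γ ∈ F.Γ ∧ 0 ≤ γ},
        g ∈ L := fun g hg => le_locv _ (Algebra.subset_adjoin hg)
    have hFsR : ∀ g ∈ Fs, g ∈ F.R := by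
      intro g hg
      rw [hFs]
      exact le_locv _ (Algebra.subset_adjoin (Or.inl hg))
    refine le_antisymm ?_ ?_
    · intro g hg
      have h1 := hfg g hg
      refine locv_le ?_ (fun f hf h0 hv => locv_inv hf h0 hv) h1
      rw [Algebra.adjoin_le_iff]
      rintro f (hf | hf)
      · rw [hFs] at hf
        refine locv_mono (Algebra.adjoin_mono ?_) hf
        refine Set.union_subset_union_left _ ?_
        intro z hz
        rw [Finset.mem_coe] at hz ⊢
        exact Finset.mem_insert_of_mem hz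
      · rw [Set.mem_singleton_iff] at hf
        rw [hf]
        exact hLgen b (Or.inl (by simp))
    · refine locv_le ?_ (fun f hf h0 hv => O1_inv hf h0 hv)
      rw [Algebra.adjoin_le_iff]
      rintro f (hf | hf)
      · rw [Finset.mem_coe, Finset.mem_insert] at hf
        rcases hf with rfl | hf
        · exact hbC
        · exact hRC (hFsR f hf)
      · obtain ⟨γ, hγ, rfl⟩ := hf
        exact hRC (F.χ_mem γ hγ.1 hγ.2)
  · intro g
    obtain ⟨P, hP, hPg⟩ := F.alg g
    refine ⟨P.map (Subalgebra.inclusion hRC : F.R →ₐ[k] C).toRingHom, ?_, ?_⟩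
    · rw [Ne, Polynomial.map_eq_zero_iff]
      · exact hP
      · exact Subalgebra.inclusion_injective hRC
    · rw [aeval_def, eval₂_map]
      exact hPg
  · intro g hg
    rw [← CN_eq]
    exact (mem_O1.1 hg).1

end Frame

end Pool.Agent.ALL5
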