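import Pool.Agent.Lib.ALL_h5.Core
import Pool.Agent.Lib.TA.Cramer

/-!
# Local uniformization for every defect: section 3, norms

See `b525bf_ALLDEFECT_h21.md`, section 3.
-/

set_option autoImplicit false

namespace Pool.Agent.ALL5

open Pool.Agent.H15JM (RVal)
open Pool.Agent.LU1 (VPos)
open Pool.Agent.TA (mx Ab Wb Is aId nId bm Vg mem_Vg Vg_mono Vg_mul mem_Vg_of_F)

universe u

variable {k Ω : Type u} [Field k] [Field Ω] [Algebra k Ω] {r D : ℕ} {v : RVal Ω} {ι : Type}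

/-- The elements of order at least `M`: combinations, with coefficients in `R`, of the monomials
`x^l` of positive value and the monomials of degree `M` in `y`. -/
def Hi (k : Type u) {Ω : Type u} [Field k] [Field Ω] [Algebra k Ω] {r D : ℕ} (v : RVal Ω)
    (R : Set Ω) (x : Fin r → Ω) (y : Fin D → Ω) (M : ℕ) : Submodule k Ω :=
  Submodule.span k ({g | ∃ f ∈ R, ∃ l : Fin r → ℤ, 0 < v (mx x l) ∧ g = f * mx x l} ∪
    {g | ∃ f ∈ R, ∃ d : Fin D →₀ ℕ, M ≤ Finsupp.degree d ∧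
      g = f * MvPolynomial.aeval y (MvPolynomial.monomial d (1 : k))})

/-- Monomial valuations with large weight of the `x`, adapted to finitely many data. -/
def OmFam (k : Type u) {Ω : Type u} [Field k] [Field Ω] [Algebra k Ω] {r D : ℕ} {ι : Type}
    (v : RVal Ω) (x : Fin r → Ω) (b : ι → Ω) (y : Fin D → Ω) (R : Set Ω)
    {F : IntermediateField k Ω} {N : IntermediateField F Ω} {ρ : ℕ}
    (τ : Fin ρ → (N ≃ₐ[F] N)) (m₀ : ℕ) : Prop :=
  ∀ (M₀ : ℕ) (SL : Finset (Fin r → ℤ)) (SR : Finset Ω), m₀ ≤ M₀ →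
    (∀ l ∈ SL, 0 < v (mx x l)) → (∀ f ∈ SR, f ∈ R) →
    ∃ (ω : RVal Ω) (x' : Fin r → Ω), WOrd k ω M₀ x' y ∧ (∀ l, ∃ l', mx x l = mx x' l') ∧
      (∀ l ∈ SL, (M₀ : ℝ) ≤ ω (mx x l)) ∧ (∀ f ∈ SR, ω.Ge 0 f) ∧
      (∀ i, ∀ g : N, (g : Ω) ∈ Ab k b → ω.Ge 0 (τ i g : Ω)) ∧
      (∀ i j, ∀ g : N, (g : Ω) = b j - 1 → ω.Ge 1 (τ i g : Ω))

theorem Hi_ge {R : Set Ω} {x : Fin r → Ω} {y : Fin D → Ω} {M : ℕ} {g : Ω}
    (hg : g ∈ Hi k v R x y M) :
    ∃ (SL : Finset (Fin r → ℤ)) (SR : Finset Ω), (∀ l ∈ SL, 0 < v (mx x l)) ∧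
      (∀ f ∈ SR, f ∈ R) ∧ ∀ (ω : RVal Ω) (M₀ : ℕ) (x' : Fin r → Ω), M ≤ M₀ →
        WOrd k ω M₀ x' y → (∀ l ∈ SL, (M₀ : ℝ) ≤ ω (mx x l)) → (∀ f ∈ SR, ω.Ge 0 f) →
        ω.Ge M g := by
  classical
  unfold Hi at hg
  induction hg using Submodule.span_induction with
  | mem g hg =>
    rcases hg with ⟨f, hf, l, hl, rfl⟩ | ⟨f, hf, d, hd, rfl⟩
    · refine ⟨{l}, {f}, by simpa using hl, by simpa using hf, ?_⟩
      intro ω M₀ x' hM hW hSL hSR
      have h1 : ω.Ge M₀ (mx x l) := fun _ => hSL l (Finset.mem_singleton_self l)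
      have h2 := (hSR f (Finset.mem_singleton_self f)).mul h1
      refine h2.mono ?_
      rw [zero_add]
      exact_mod_cast hM
    · refine ⟨∅, {f}, by simp, by simpa using hf, ?_⟩
      intro ω M₀ x' hM hW hSL hSR
      have h2 := (hSR f (Finset.mem_singleton_self f)).mul (hW.ge_mon d 1)
      refine h2.mono ?_
      rw [zero_add]
      exact_mod_cast hd
  | zero => exact ⟨∅, ∅, by simp, by simp, fun _ _ _ _ _ _ _ => RVal.Ge.zero⟩
  | add g h _ _ hg hh =>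
    obtain ⟨L₁, R₁, h1, h2, h3⟩ := hg
    obtain ⟨L₂, R₂, h4, h5, h6⟩ := hh
    refine ⟨L₁ ∪ L₂, R₁ ∪ R₂, ?_, ?_, ?_⟩
    · intro l hl
      rcases Finset.mem_union.1 hl with hl | hl
      · exact h1 l hl
      · exact h4 l hl
    · intro f hf
      rcases Finset.mem_union.1 hf with hf | hf
      · exact h2 f hf
      · exact h5 f hf
    · intro ω M₀ x' hM hW hSL hSR
      exact (h3 ω M₀ x' hM hW (fun l hl => hSL l (Finset.mem_union_left _ hl))
        (fun f hf => hSR f (Finset.mem_union_left _ hf))).add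
        (h6 ω M₀ x' hM hW (fun l hl => hSL l (Finset.mem_union_right _ hl))
        (fun f hf => hSR f (Finset.mem_union_right _ hf)))
  | smul c g _ hg =>
    obtain ⟨L₁, R₁, h1, h2, h3⟩ := hg
    refine ⟨L₁, R₁, h1, h2, ?_⟩
    intro ω M₀ x' hM hW hSL hSR
    rw [Algebra.smul_def]
    have h4 := (hW.ge_k c).mul (h3 ω M₀ x' hM hW hSL hSR)
    rwa [zero_add] at h4

section

variable {F : IntermediateField k Ω} {N : IntermediateField F Ω} {ω : RVal Ω}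
  {hωk : ∀ c : k, c ≠ 0 → ω (algebraMap k Ω c) = 0} {σ : N ≃ₐ[F] N}

/-- The elements of the powers of the ideal `(b_j - 1)`. -/
theorem nId_pow_le (b : ι → Ω) (hA : (Ab k b).toSubmodule ≤ Vg hωk σ 0)
    (hb : ∀ j, b j - 1 ∈ Vg hωk σ 1) (s : ℕ) (E : Ab k b) (hE : E ∈ nId k b ^ s) :
    (E : Ω) ∈ Vg hωk σ s := by
  have hmul : ∀ (c : ℝ) (g : Ab k b) (z : Ω), z ∈ Vg hωk σ c → (g : Ω) * z ∈ Vg hωk σ c := by
    intro c g z hz
    have h1 := Vg_mul (hωk := hωk) (σ := σ) 0 c (Submodule.mul_mem_mul (hA g.2) hz)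
    rwa [zero_add] at h1
  let J : ℝ → Ideal (Ab k b) := fun c =>
    { carrier := {g | (g : Ω) ∈ Vg hωk σ c}
      add_mem' := fun {g h} hg hh => by
        change ((g : Ω) + (h : Ω)) ∈ Vg hωk σ c
        exact Submodule.add_mem _ hg hh
      zero_mem' := (Vg hωk σ c).zero_mem
      smul_mem' := fun g h hh => hmul c g _ hh }
  have h1 : nId k b ≤ J 1 := by
    rw [nId, Ideal.span_le]
    rintro _ ⟨j, rfl⟩
    exact hb j
  have h2 : ∀ s : ℕ, nId k b ^ s ≤ J s := by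
    intro s
    induction s with
    | zero =>
      intro g _
      change (g : Ω) ∈ Vg hωk σ ((0 : ℕ) : ℝ)
      rw [Nat.cast_zero]
      exact hA g.2
    | succ s ih =>
      rw [pow_succ, Ideal.mul_le]
      intro g hg h hh
      have h3 : (g : Ω) ∈ Vg hωk σ (s : ℝ) := ih hg
      have h4 : (h : Ω) ∈ Vg hωk σ 1 := h1 hh
      have h5 := Vg_mul (hωk := hωk) (σ := σ) _ _ (Submodule.mul_mem_mul h3 h4)
      change ((g : Ω) * (h : Ω)) ∈ Vg hωk σ ((s + 1 : ℕ) : ℝ)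
      rw [Nat.cast_succ]
      exact h5
  exact h2 s hE

theorem Is_le (b : ι → Ω) (hA : (Ab k b).toSubmodule ≤ Vg hωk σ 0) {x : Fin r → Ω}
    (hxF : ∀ i, x i ∈ F) {M₀ : ℕ} (SL : Finset (Fin r → ℤ))
    (hSL : ∀ l ∈ SL, (M₀ : ℝ) ≤ ω (mx x l)) {X : Ω}
    (hX : X ∈ Submodule.span k {g | ∃ c ∈ Ab k b, ∃ l ∈ SL, g = c * mx x l}) :
    X ∈ Vg hωk σ M₀ := by
  refine (Submodule.span_le.2 ?_) hX
  rintro _ ⟨c, hc, l, hl, rfl⟩
  have h1 : mx x l ∈ F := prod_mem fun i _ => zpow_mem (hxF i) _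
  have h2 : mx x l ∈ Vg hωk σ M₀ := mem_Vg_of_F h1 fun _ => hSL l hl
  have h3 := Vg_mul (hωk := hωk) (σ := σ) _ _ (Submodule.mul_mem_mul (hA hc) h2)
  rwa [zero_add] at h3

end

/-- The ring `k[x, x⁻¹, b, b⁻¹]`. -/
def Axi (k : Type u) {Ω : Type u} [Field k] [Field Ω] [Algebra k Ω] {ι : Type} {r : ℕ}
    (x : Fin r → Ω) (b : ι → Ω) : Subalgebra k Ω :=
  Algebra.adjoin k ((Set.range x ∪ Set.range fun i => (x i)⁻¹) ∪
    (Set.range b ∪ Set.range fun j => (b j)⁻¹))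

section

variable {F : IntermediateField k Ω} {N : IntermediateField F Ω} {ρ : ℕ}
  {τ : Fin ρ → (N ≃ₐ[F] N)}

/-- Section 3 for one element: the initial form of the discriminant divides the power of the
initial form. -/
theorem dvd_of_mem {x : Fin r → Ω} {b : ι → Ω} {y : Fin D → Ω} {R : Set Ω} {m₀ : ℕ}
    (hOm : OmFam k v x b y R τ m₀) (hρ : 0 < ρ) (hxF : ∀ i, x i ∈ F) (hyF : ∀ j, y j ∈ F)
    (hbN : ∀ g ∈ Ab k b, g ∈ N) {q : N} {κ : Fin r → ℤ} {d₁ : Ω}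
    (hd : ∏ i, (τ i q : Ω) = mx x κ * d₁)
    {Φ : MvPolynomial (Fin D) k} {M : ℕ} (hΦ : Φ.IsHomogeneous M) (hΦ0 : Φ ≠ 0)
    (hd₁ : d₁ - MvPolynomial.aeval y Φ ∈ Hi k v R x y (M + 1))
    (hcont : ∀ h : N, (h : Ω) ∈ Axi k x b → h ≠ 0 → ∃ (κ' : Fin r → ℤ) (h₁ : Ω)
      (Ψ : MvPolynomial (Fin D) k) (M' : ℕ), Ψ.IsHomogeneous M' ∧ Ψ ≠ 0 ∧
      ∏ i, (τ i h : Ω) = mx x κ' * h₁ ∧
      h₁ - MvPolynomial.aeval y Ψ ∈ Hi k v R x y (M' + 1))
    {G : MvPolynomial (Fin D) k} {e s : ℕ} (hes : e < s)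
    (hlow : ∀ d ∈ G.support, e ≤ Finsupp.degree d)
    (hne : MvPolynomial.homogeneousComponent e G ≠ 0)
    {h X : Ω} {E : Ab k b} (hh : h ∈ Axi k x b) (hhN : h ∈ N) (hE : E ∈ nId k b ^ s)
    (hX : X ∈ Is (k := k) v x b)
    (heq : MvPolynomial.aeval y G = (q : Ω) * h + (E : Ω) + X) :
    Φ ∣ MvPolynomial.homogeneousComponent e G ^ ρ := by
  classical
  set Ge' : MvPolynomial (Fin D) k := MvPolynomial.homogeneousComponent e G with hGe
  have hGehom : Ge'.IsHomogeneous e := MvPolynomial.homogeneousComponent_isHomogeneous e G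
  have hyF' : ∀ P : MvPolynomial (Fin D) k, MvPolynomial.aeval y P ∈ F := by
    intro P
    induction P using MvPolynomial.induction_on with
    | C a => rw [MvPolynomial.aeval_C]; exact F.algebraMap_mem a
    | add p q hp hq => rw [map_add]; exact add_mem hp hq
    | mul_X p j hp => rw [map_mul, MvPolynomial.aeval_X]; exact mul_mem hp (hyF j)
  have hEN : (E : Ω) ∈ N := hbN _ E.2
  -- the part of `G` of larger degree
  have hrest : ∀ d ∈ (G - Ge').support, e + 1 ≤ Finsupp.degree d := by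
    intro d hd
    have h1 := MvPolynomial.mem_support_iff.1 hd
    rw [MvPolynomial.coeff_sub, hGe, MvPolynomial.coeff_homogeneousComponent] at h1
    by_cases h2 : Finsupp.degree d = e
    · rw [if_pos h2, sub_self] at h1
      exact absurd rfl h1
    · rw [if_neg h2, sub_zero] at h1
      have h3 := hlow d (MvPolynomial.mem_support_iff.2 h1)
      omega
  -- the finite data of `X`
  obtain ⟨L₀, hL₀, hXL₀⟩ := Pool.Agent.TA.exists_finset_of_mem_Is hX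
  obtain ⟨L₁, R₁, hL₁, hR₁, hge₁⟩ := Hi_ge hd₁
  have hXN : X ∈ N := by
    have h1 : X = (MvPolynomial.aeval y G : Ω) - (q : Ω) * h - (E : Ω) := by
      rw [heq]
      ring
    rw [h1]
    refine sub_mem (sub_mem ?_ (mul_mem q.2 hhN)) hEN
    exact (algebraMap F N ⟨_, hyF' G⟩).2
  -- the factors
  have hfac : ∀ (ω : RVal Ω) (M₀ : ℕ) (x' : Fin r → Ω), WOrd k ω M₀ x' y → e + 1 ≤ M₀ →
      (∀ l ∈ L₀, (M₀ : ℝ) ≤ ω (mx x l)) →
      (∀ i, ∀ g : N, (g : Ω) ∈ Ab k b → ω.Ge 0 (τ i g : Ω)) →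
      (∀ i j, ∀ g : N, (g : Ω) = b j - 1 → ω.Ge 1 (τ i g : Ω)) →
      ∀ i, ω.Ge (e + 1) ((τ i (q * ⟨h, hhN⟩) : Ω) - MvPolynomial.aeval y Ge') := by
    intro ω M₀ x' hW hM₀ hL hA hB i
    have hA' : (Ab k b).toSubmodule ≤ Vg hW.hk (τ i) 0 := by
      intro g hg
      exact ⟨⟨g, hbN g hg⟩, rfl, hA i _ hg⟩
    have hB' : ∀ j, b j - 1 ∈ Vg hW.hk (τ i) 1 := by
      intro j
      have h1 : b j - 1 ∈ N := hbN _ (sub_mem (Pool.Agent.TA.b_mem b j) (one_mem _))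
      exact ⟨⟨b j - 1, h1⟩, rfl, hB i j _ rfl⟩
    obtain ⟨m, hm, hmE⟩ := nId_pow_le b hA' hB' s E hE
    obtain ⟨m', hm', hmX⟩ := Is_le (hωk := hW.hk) (σ := τ i) b hA' hxF L₀ hL hXL₀
    have h1 : q * ⟨h, hhN⟩ = algebraMap F N ⟨_, hyF' G⟩ - m - m' := by
      apply Subtype.ext
      push_cast
      rw [hm, hm']
      change (q : Ω) * h = MvPolynomial.aeval y G - (E : Ω) - X
      rw [heq]
      ring
    have h2 : ((τ i (q * ⟨h, hhN⟩) : N) : Ω) = MvPolynomial.aeval y G - (τ i m : Ω) -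
        (τ i m' : Ω) := by
      rw [h1, map_sub, map_sub, AlgEquiv.commutes]
      push_cast
      rfl
    rw [h2]
    have h3 : (MvPolynomial.aeval y G : Ω) - (τ i m : Ω) - (τ i m' : Ω) -
        MvPolynomial.aeval y Ge' = MvPolynomial.aeval y (G - Ge') - (τ i m : Ω) -
        (τ i m' : Ω) := by
      rw [map_sub]
      ring
    rw [h3]
    refine RVal.Ge.sub (RVal.Ge.sub ?_ (hmE.mono ?_)) (hmX.mono ?_)
    · have h4 := hW.ge_hom hrest
      push_cast at h4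
      exact h4
    · exact_mod_cast hes
    · exact_mod_cast hM₀
  -- `h ≠ 0`
  have hqh : q * ⟨h, hhN⟩ ≠ 0 := by
    intro h0
    obtain ⟨ω, x', hW, -, hL, -, hA, hB⟩ := hOm (max m₀ (e + 1)) L₀ ∅ (le_max_left _ _) hL₀
      (by simp)
    have h1 := hfac ω _ x' hW (le_max_right _ _) hL hA hB ⟨0, hρ⟩
    rw [h0, map_zero] at h1
    have h2 := hW.ne_of_hom hne
    have h3 := hW.val_hom hGehom hne
    have h4 : ω ((((0 : N) : Ω)) - MvPolynomial.aeval y Ge') = e := by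
      rw [ZeroMemClass.coe_zero, zero_sub, ω.map_neg _ h2, h3]
    have h5 := h1 (by rw [ZeroMemClass.coe_zero, zero_sub]; exact neg_ne_zero.2 h2)
    rw [h4] at h5
    linarith
  have hh0 : (⟨h, hhN⟩ : N) ≠ 0 := right_ne_zero_of_mul hqh
  obtain ⟨κ', h₁, Ψ, M', hΨ, hΨ0, hh₁, hh₁'⟩ := hcont ⟨h, hhN⟩ hh hh0
  obtain ⟨L₂, R₂, hL₂, hR₂, hge₂⟩ := Hi_ge hh₁'
  obtain ⟨ω, x', hW, hxx', hL, hRω, hA, hB⟩ := hOm (max m₀ (max (e + 1) (max (M + 1) (M' + 1))))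
    (L₀ ∪ (L₁ ∪ L₂)) (R₁ ∪ R₂) (le_max_left _ _) (by
      intro l hl
      rcases Finset.mem_union.1 hl with hl | hl
      · exact hL₀ l hl
      · rcases Finset.mem_union.1 hl with hl | hl
        · exact hL₁ l hl
        · exact hL₂ l hl) (by
      intro f hf
      rcases Finset.mem_union.1 hf with hf | hf
      · exact hR₁ f hf
      · exact hR₂ f hf)
  have hf := hfac ω _ x' hW ((le_max_left _ _).trans (le_max_right _ _))
    (fun l hl => hL l (Finset.mem_union_left _ hl)) hA hB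
  have hd' := hge₁ ω _ x' (((le_max_left _ _).trans (le_max_right _ _)).trans
    (le_max_right _ _)) hW (fun l hl => hL l (Finset.mem_union_right _
      (Finset.mem_union_left _ hl))) (fun f hf => hRω f (Finset.mem_union_left _ hf))
  have hh' := hge₂ ω _ x' (((le_max_right _ _).trans (le_max_right _ _)).trans
    (le_max_right _ _)) hW (fun l hl => hL l (Finset.mem_union_right _
      (Finset.mem_union_right _ hl))) (fun f hf => hRω f (Finset.mem_union_right _ hf))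
  -- the norm
  have hnorm := ge_prod (ω := ω) Finset.univ (fun i => ((τ i (q * ⟨h, hhN⟩) : N) : Ω))
    (MvPolynomial.aeval y Ge' : Ω) e (hW.ge_hom (WOrd.deg_hom hGehom)) fun i _ => hf i
  rw [Finset.card_univ, Fintype.card_fin, ← map_pow] at hnorm
  obtain ⟨l₁, hl₁⟩ := hxx' κ
  obtain ⟨l₂, hl₂⟩ := hxx' κ'
  have hprod : ∏ i, ((τ i (q * ⟨h, hhN⟩) : N) : Ω) = mx x' (l₁ + l₂) * d₁ * h₁ := by
    have h1 : ∀ i, ((τ i (q * ⟨h, hhN⟩) : N) : Ω) = (τ i q : Ω) * (τ i ⟨h, hhN⟩ : Ω) := by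
      intro i
      rw [map_mul]
      push_cast
      rfl
    rw [Finset.prod_congr rfl fun i _ => h1 i, Finset.prod_mul_distrib, hd, hh₁,
      Pool.Agent.TA.mx_add hW.x_ne, hl₁, hl₂]
    ring
  have hfin := forms_mul hW (hGehom.pow ρ) hΦ hΨ (pow_ne_zero ρ hne) hΦ0 hΨ0
    (by exact_mod_cast hd') (by exact_mod_cast hh') (g := ∏ i, ((τ i (q * ⟨h, hhN⟩) : N) : Ω))
    (hnorm.mono (by push_cast; linarith)) (l₁ + l₂) hprod
  exact ⟨Ψ, hfin.symm⟩

end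

end Pool.Agent.ALL5
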