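import Pool.Agent.Lib.ALL_h5.Order
import Pool.Agent.Lib.ALL_h5.Sec3

/-!
# Row R8 + R9 of block X: `exists_ord`
-/

set_option autoImplicit false

open Polynomial

namespace Pool.Agent.ALL5

open Pool.Agent.H15JM (RVal)
open Pool.Agent.LU1 (VPos locv locv_inv locv_nonneg le_locv locv_mono FracIs)
open Pool.Agent.LU3 (Ctx0)
open Pool.Agent.TA (mx toAdj coe_toAdj toAdj_injective exists_frac Ab Wb Is Vg mem_Vg Vg_mono
  Vg_mul mem_Vg_of_F mul_le_Vg pow_le_Vg CtxR)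
open Pool.Agent.ALL (Oinf Ainf FROf FR ICl icl cosetProd GG1)

universe u

variable {k Ω : Type u} [Field k] [Field Ω] [Algebra k Ω] {v : RVal Ω} {n r D : ℕ}

theorem res_of_ctx (h : Ctx0 k v n) (g : Ω) (hg : v.Ge 0 g) :
    ∃ c : k, VPos v (g - algebraMap k Ω c) := by
  rcases vpos_or hg with h1 | ⟨h0, h1⟩
  · exact ⟨0, by rwa [map_zero, sub_zero]⟩
  · obtain ⟨c, -, hc⟩ := h.res g h0 h1
    exact ⟨c, hc⟩

section FROfFacts

variable {F : FR k v D} {x : Fin r → Ω} {y : Fin D → Ω} {K : IntermediateField k Ω}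

theorem mx_mem_K (hF : FROf F x y) (hx0 : ∀ i, x i ≠ 0) (hK : FracIs F.R K) (l : Fin r → ℤ) :
    mx x l ∈ K := by
  have h1 : ∀ l : Fin r → ℤ, 0 ≤ v (mx x l) → mx x l ∈ K := by
    intro l hl
    rw [← hF.χ_mx l]
    exact hK.1 _ (F.χ_mem _ ((hF.Γ_iff _).2 ⟨l, rfl⟩) hl)
  rcases le_total 0 (v (mx x l)) with h | h
  · exact h1 l h
  · have h2 : mx x l * mx x (-l) = 1 := by
      rw [← Pool.Agent.TA.mx_add hx0, add_neg_cancel, Pool.Agent.TA.mx_zero]
    have h3 : 0 ≤ v (mx x (-l)) := by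
      have h4 := v.map_mul (Pool.Agent.TA.mx_ne hx0 l) (Pool.Agent.TA.mx_ne hx0 (-l))
      rw [h2, v.map_one] at h4
      linarith
    have h4 : mx x l = (mx x (-l))⁻¹ := eq_inv_of_mul_eq_one_left h2
    rw [h4]
    exact inv_mem (h1 _ h3)

theorem u_mem_K (hF : FROf F x y) (hx0 : ∀ i, x i ≠ 0) (hK : FracIs F.R K) :
    ∀ i, Sum.elim x y i ∈ K := by
  rintro (i | j)
  · have h1 := mx_mem_K hF hx0 hK (Pi.single i 1)
    rw [Pool.Agent.TA.mx_single, zpow_one] at h1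
    exact h1
  · rw [← hF.y_eq]
    exact hK.1 _ (F.y_mem j)

theorem K_eq (hF : FROf F x y) (hx0 : ∀ i, x i ≠ 0) (hK : FracIs F.R K) :
    K = IntermediateField.adjoin k (Set.range (Sum.elim x y)) := by
  refine le_antisymm ?_ ?_
  · intro g hg
    obtain ⟨a, ha, b, hb, -, rfl⟩ := hK.2 g hg
    set L := IntermediateField.adjoin k (Set.range (Sum.elim x y)) with hL
    have hxL : ∀ i, x i ∈ L := fun i => IntermediateField.subset_adjoin _ _ ⟨Sum.inl i, rfl⟩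
    have hyL : ∀ j, y j ∈ L := fun j => IntermediateField.subset_adjoin _ _ ⟨Sum.inr j, rfl⟩
    have h1 : Oinf k v x y ≤ L.toSubalgebra := by
      refine Algebra.adjoin_le ?_
      rintro f (⟨l, -, rfl⟩ | ⟨j, rfl⟩)
      · exact prod_mem fun i _ => zpow_mem (hxL i) _
      · exact hyL j
    have h2 : ∀ f ∈ F.R, f ∈ L := by
      intro f hf
      rw [hF.R_eq] at hf
      obtain ⟨a, ha, b, hb, -, -, rfl⟩ := hf
      exact div_mem (h1 ha) (h1 hb)
    exact div_mem (h2 a ha) (h2 b hb)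
  · rw [IntermediateField.adjoin_le_iff]
    rintro _ ⟨i, rfl⟩
    exact u_mem_K hF hx0 hK i

end FROfFacts

/-- The key: the valuations `ω_L`. -/
theorem exists_omegaL (h : Ctx0 k v n) (hn : n = r + D) {ι : Type} [Fintype ι]
    {E : IntermediateField k Ω} {x : Fin r → Ω} (hx0 : ∀ i, x i ≠ 0)
    (hxi : LinearIndependent ℚ fun i => v (x i)) {b : ι → Ω}
    (hb1 : ∀ j, VPos v (b j - 1)) {y : Fin D → Ω} (hy : ∀ j, y j ∈ Wb k b) {s₀ : ℕ}
    (hG1 : GG1 k v x b y s₀) {F : FR k v D} (hF : FROf F x y) {K : IntermediateField k Ω}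
    (hB : Base v F.R K) (hA : Ainf k v x b ≤ ICl v F.R E) (hK : FracIs F.R K)
    {N : IntermediateField K Ω} [FiniteDimensional K N] [IsGalois K N]
    (hEN : ∀ g ∈ E, g ∈ N) {M₁ : ℕ} {g : MvPolynomial (Fin D) k} (hg0 : g ≠ 0)
    (hg : g.totalDegree < M₁) {e : Ω} (he : e ∈ Is (k := k) v x b) {u : Ω}
    (hu : u ∈ Wb k b ^ M₁ * (Ab k b).toSubmodule) {G : N}
    (hG : (G : Ω) = MvPolynomial.aeval y g + e + u) :
    ∃ (L₀ : ℝ) (M' : ℕ), M' < M₁ ∧ ∀ L : ℝ, L₀ ≤ L → 0 < L → ∃ ω : RVal Ω,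
      (∀ c : k, c ≠ 0 → ω (algebraMap k Ω c) = 0) ∧ (∀ γ ∈ F.Γ, ω (F.χ γ) = L * γ) ∧
      (∀ P : MvPolynomial (Fin D) k, P ≠ 0 → MvPolynomial.aeval y P ≠ (0 : Ω) ∧
        ω (MvPolynomial.aeval y P) = mw (fun _ => (1 : ℝ)) P) ∧
      (∀ f ∈ CN v F.R N, ω.Ge 0 f) ∧ ∀ σ ∈ decP hB N, σ G ≠ 0 ∧ ω (σ G : Ω) = M' := by
  classical
  have hk := h.triv
  have huK := u_mem_K hF hx0 hK
  have hKeq := K_eq hF hx0 hK
  have hxK : ∀ i, x i ∈ K := fun i => huK (Sum.inl i)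
  have hyK : ∀ j, y j ∈ K := fun j => huK (Sum.inr j)
  have hyv : ∀ j, VPos v (y j) := fun j => Pool.Agent.TA.vpos_Wb h hb1 (hy j)
  have halgK : ∀ g : Ω, IsAlgebraic K g := by
    intro g
    obtain ⟨P, hP, hPg⟩ := F.alg g
    let φ : F.R →+* K := ((algebraMap F.R Ω).codRestrict K.toSubring fun f => hB.le _ f.2)
    have hφ : Function.Injective φ := by
      intro f g h
      apply Subtype.ext
      exact congrArg (fun z : K => (z : Ω)) h
    refine ⟨P.map φ, ?_, ?_⟩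
    · rwa [Ne, Polynomial.map_eq_zero_iff hφ]
    · rw [aeval_def, eval₂_map]
      exact hPg
  have hind : AlgebraicIndependent k (Sum.elim x y) := by
    refine Pool.Agent.TA.algInd h hn x y ?_
    rw [← Set.Sum.elim_range, ← hKeq]
    exact halgK
  have halgN : ∀ g : Ω, IsAlgebraic N g := fun g => (halgK g).tower_top N
  -- `A_∞` lies in the localized ring of `N`
  have hAbC : ∀ g ∈ Ab k b, g ∈ CN v F.R N := by
    intro g hg
    rw [CN_eq]
    have h1 : g ∈ ICl v F.R E := hA (Algebra.subset_adjoin (Or.inr hg))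
    refine locv_mono ?_ h1
    intro z hz
    exact ⟨hEN z hz.1, hz.2⟩
  have hCNN : ∀ g ∈ CN v F.R N, g ∈ N := by
    rintro _ ⟨a, ha, c, hc, -, -, rfl⟩
    exact div_mem (mem_ON.1 ha).2 (mem_ON.1 hc).2
  have hAbN : ∀ g ∈ Ab k b, g ∈ N := fun g hg => hCNN g (hAbC g hg)
  -- finite data
  have hfg : (Wb k b ^ (s₀ + 1)).FG := by
    refine Submodule.FG.pow ?_ _
    exact ⟨Finset.univ.image fun j => b j - 1, by simp [Wb]⟩
  obtain ⟨S, hS⟩ := hfg
  have hdec : ∀ t ∈ S, ∃ X : Ω, X ∈ Is (k := k) v x b ∧ t ∈ Submodule.span k (Set.range y) *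
      Wb k b ^ s₀ ⊔ Submodule.span k {X} ⊔ Wb k b ^ (s₀ + 2) * (Ab k b).toSubmodule := by
    intro t ht
    have h1 : t ∈ Wb k b ^ (s₀ + 1) := by
      rw [← hS]
      exact Submodule.subset_span ht
    obtain ⟨z, hz, w, hw, rfl⟩ := Submodule.mem_sup.1 (hG1 h1)
    obtain ⟨a, ha, X, hX, rfl⟩ := Submodule.mem_sup.1 hz
    exact ⟨X, hX.1, Submodule.add_mem_sup (Submodule.add_mem_sup ha
      (Submodule.mem_span_singleton_self X)) hw⟩
  choose! X hX hXt using hdec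
  have hfin : ∀ t ∈ S, ∃ SL : Finset (Fin r → ℤ), (∀ l ∈ SL, 0 < v (mx x l)) ∧
      X t ∈ Submodule.span k {g | ∃ c ∈ Ab k b, ∃ l ∈ SL, g = c * mx x l} :=
    fun t ht => Pool.Agent.TA.exists_finset_of_mem_Is (hX t ht)
  choose! SL hSL1 hSL2 using hfin
  obtain ⟨SE, hSE1, hSE2⟩ := Pool.Agent.TA.exists_finset_of_mem_Is he
  set SA : Finset (Fin r → ℤ) := S.biUnion SL ∪ SE with hSA
  have hSApos : ∀ l ∈ SA, 0 < v (mx x l) := by
    intro l hl
    rcases Finset.mem_union.1 hl with hl | hl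
    · obtain ⟨t, ht, hl⟩ := Finset.mem_biUnion.1 hl
      exact hSL1 t ht l hl
    · exact hSE1 l hl
  obtain ⟨δ, hδ0, hδ⟩ : ∃ δ : ℝ, 0 < δ ∧ ∀ l ∈ SA, δ ≤ v (mx x l) := by
    by_cases hne : SA.Nonempty
    · obtain ⟨l, hl, hmin⟩ := Finset.exists_min_image SA (fun l => v (mx x l)) hne
      exact ⟨v (mx x l), hSApos l hl, hmin⟩
    · rw [Finset.not_nonempty_iff_eq_empty] at hne
      exact ⟨1, one_pos, by simp [hne]⟩
  obtain ⟨M', hM'le, hM', hM'low⟩ := exists_low hg0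
  refine ⟨((max (s₀ + 1) M₁ : ℕ) : ℝ) / δ, M', lt_of_le_of_lt hM'le hg, ?_⟩
  intro L hL hL0
  obtain ⟨μ, hμk, hμR, hμP⟩ := exists_muL hk hx0 hxi hyv hind huK hKeq hL0
  obtain ⟨ω, hω1, hω2⟩ := exists_ext (N := N) hB hK halgN hk hμk (by
    intro f hf
    rw [hF.R_eq] at hf
    exact hμR f hf)
  have hωk : ∀ c : k, c ≠ 0 → ω (algebraMap k Ω c) = 0 := by
    intro c hc
    have h1 := hω1 (algebraMap k K c) (by simpa using hc)
    rw [hμk c hc] at h1
    exact h1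
  have hωP : ∀ P : MvPolynomial (Fin r ⊕ Fin D) k, P ≠ 0 →
      MvPolynomial.aeval (Sum.elim x y) P ≠ (0 : Ω) ∧
      ω (MvPolynomial.aeval (Sum.elim x y) P) =
        mw (Sum.elim (fun i => L * v (x i)) fun _ => 1) P := by
    intro P hP
    have h1 : toAdj (Sum.elim x y) K huK P ≠ 0 := by
      rw [Ne, map_eq_zero_iff _ (toAdj_injective hind K huK)]
      exact hP
    have h2 := hω1 _ h1
    rw [hμP P hP, coe_toAdj] at h2
    refine ⟨?_, h2⟩
    rw [← coe_toAdj (Sum.elim x y) K huK]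
    exact fun h3 => h1 (Subtype.ext h3)
  have hωx : ∀ i, ω (x i) = L * v (x i) := by
    intro i
    have h1 := (hωP (MvPolynomial.X (Sum.inl i)) (MvPolynomial.X_ne_zero _)).2
    rw [MvPolynomial.aeval_X, Sum.elim_inl] at h1
    rw [h1]
    obtain ⟨d, hd, hd'⟩ := exists_mw (k := k) (Sum.elim (fun i => L * v (x i)) fun _ => 1)
      (MvPolynomial.X_ne_zero (R := k) (Sum.inl i : Fin r ⊕ Fin D))
    rw [MvPolynomial.support_X, Finset.mem_singleton] at hd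
    rw [hd', hd, Finsupp.weight_single, one_smul, Sum.elim_inl]
  have hωmx : ∀ l, ω (mx x l) = L * v (mx x l) := by
    intro l
    rw [Pool.Agent.TA.v_mx hx0, Pool.Agent.TA.v_mx hx0, Finset.mul_sum]
    refine Finset.sum_congr rfl fun i _ => ?_
    rw [hωx i]
    ring
  have hωy : ∀ P : MvPolynomial (Fin D) k, P ≠ 0 → MvPolynomial.aeval y P ≠ (0 : Ω) ∧
      ω (MvPolynomial.aeval y P) = mw (fun _ => (1 : ℝ)) P := by
    intro P hP
    have hP' : MvPolynomial.rename (Sum.inr : Fin D → Fin r ⊕ Fin D) P ≠ 0 := by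
      rwa [Ne, map_eq_zero_iff _ (MvPolynomial.rename_injective _ Sum.inr_injective)]
    have h1 := hωP _ hP'
    rw [WOrd.aeval_rename, mw_rename _ Sum.inr_injective _ _ hP] at h1
    exact h1
  have hωyj : ∀ j, ω (y j) = 1 := by
    intro j
    have h1 := (hωy (MvPolynomial.X j) (MvPolynomial.X_ne_zero _)).2
    rw [MvPolynomial.aeval_X] at h1
    rw [h1]
    obtain ⟨d, hd, hd'⟩ := exists_mw (k := k) (fun _ => (1 : ℝ))
      (MvPolynomial.X_ne_zero (R := k) (j : Fin D))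
    rw [MvPolynomial.support_X, Finset.mem_singleton] at hd
    rw [hd', hd, Finsupp.weight_single, one_smul]
  have hbig : ∀ l ∈ SA, ((max (s₀ + 1) M₁ : ℕ) : ℝ) ≤ ω (mx x l) := by
    intro l hl
    rw [hωmx]
    rw [div_le_iff₀ hδ0] at hL
    exact hL.trans (mul_le_mul_of_nonneg_left (hδ l hl) hL0.le)
  have hCge : ∀ f ∈ CN v F.R N, ω.Ge 0 f := by
    intro f hf
    have h1 := (dec_ge hB hω2 (decP hB N).one_mem (g := ⟨f, hCNN f hf⟩) hf).1
    exact h1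
  refine ⟨ω, hωk, ?_, hωy, hCge, ?_⟩
  · intro γ hγ
    obtain ⟨l, rfl⟩ := (hF.Γ_iff γ).1 hγ
    rw [hF.χ_mx l, hωmx]
  intro σ hσ
  -- the subspaces
  have hAV : (Ab k b).toSubmodule ≤ Vg hωk σ 0 := by
    intro z hz
    exact ⟨⟨z, hAbN z hz⟩, rfl, (dec_ge hB hω2 hσ (g := ⟨z, hAbN z hz⟩) (hAbC z hz)).1⟩
  have hWV : Wb k b ≤ Vg hωk σ 1 := by
    refine Wb_le_Vg' b y s₀ (⨆ t ∈ S, Submodule.span k {X t}) (Ab k b).toSubmodule ?_ hAV ?_ ?_ ?_
    · rw [← hS, Submodule.span_le]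
      intro t ht
      have h5 : Submodule.span k {X t} ≤ ⨆ t ∈ S, Submodule.span k {X t} :=
        le_iSup₂ (f := fun (t : Ω) (_ : t ∈ S) => Submodule.span k {X t}) t ht
      have h6 : Submodule.span k (Set.range y) * Wb k b ^ s₀ ⊔ Submodule.span k {X t} ⊔
          Wb k b ^ (s₀ + 2) * (Ab k b).toSubmodule ≤
          Submodule.span k (Set.range y) * Wb k b ^ s₀ ⊔ (⨆ t ∈ S, Submodule.span k {X t}) ⊔
          Wb k b ^ (s₀ + 2) * (Ab k b).toSubmodule :=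
        sup_le_sup (sup_le_sup le_rfl h5) le_rfl
      exact h6 (hXt t ht)
    · refine iSup₂_le fun t ht => ?_
      rw [Submodule.span_singleton_le_iff_mem]
      refine Is_le b hAV hxK (SL t) (fun l hl => ?_) (hSL2 t ht)
      have h1 := hbig l (Finset.mem_union_left _ (Finset.mem_biUnion.2 ⟨t, ht, hl⟩))
      refine le_trans ?_ h1
      exact_mod_cast le_max_left _ _
    · rw [Submodule.span_le]
      rintro _ ⟨j, rfl⟩
      exact mem_Vg_of_F (hyK j) fun _ => (hωyj j).ge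
    · intro j hj
      have h1 : b j - 1 ∈ Ab k b := sub_mem (Pool.Agent.TA.b_mem b j) (one_mem _)
      refine ⟨⟨b j - 1, hAbN _ h1⟩, rfl, ?_⟩
      refine (dec_ge hB hω2 hσ (g := ⟨b j - 1, hAbN _ h1⟩) (hAbC _ h1)).2 (hb1 j) ?_
      intro h2
      apply hj
      have h3 : σ ⟨b j - 1, hAbN _ h1⟩ = 0 := Subtype.ext h2
      rw [map_eq_zero_iff σ σ.injective] at h3
      exact congrArg (fun z : N => (z : Ω)) h3
  have huV : u ∈ Vg hωk σ M₁ := by
    have h1 := mul_le_Vg (pow_le_Vg hWV M₁) hAV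
    rw [mul_one, add_zero] at h1
    exact h1 hu
  have heV : e ∈ Vg hωk σ M₁ := by
    refine Is_le b hAV hxK SE (fun l hl => ?_) hSE2
    have h1 := hbig l (Finset.mem_union_right _ hl)
    refine le_trans ?_ h1
    exact_mod_cast le_max_right _ _
  obtain ⟨u', hu', huu'⟩ := huV
  obtain ⟨e', he', hee'⟩ := heV
  have hgK : MvPolynomial.aeval y g ∈ K := by
    have h1 : ∀ P : MvPolynomial (Fin D) k, MvPolynomial.aeval y P ∈ K := by
      intro P
      induction P using MvPolynomial.induction_on with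
      | C a => rw [MvPolynomial.aeval_C]; exact K.algebraMap_mem a
      | add p q hp hq => rw [map_add]; exact add_mem hp hq
      | mul_X p j hp => rw [map_mul, MvPolynomial.aeval_X]; exact mul_mem hp (hyK j)
    exact h1 g
  have hGeq : G = algebraMap K N ⟨_, hgK⟩ + e' + u' := by
    apply Subtype.ext
    push_cast
    rw [he', hu', hG]
    rfl
  have hσG : ((σ G : N) : Ω) - MvPolynomial.aeval y g = (σ e' : Ω) + (σ u' : Ω) := by
    rw [hGeq, map_add, map_add, AlgEquiv.commutes]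
    push_cast
    change MvPolynomial.aeval y g + (σ e' : Ω) + (σ u' : Ω) - MvPolynomial.aeval y g = _
    ring
  have hgy := hωy g hg0
  have h1 := val_of_sub (ω := ω) (c := (M₁ : ℝ)) (f := ((σ G : N) : Ω)) hgy.1 (by
    rw [hgy.2, hM']
    exact_mod_cast lt_of_le_of_lt hM'le hg) (by
    rw [hσG]
    exact hee'.add huu')
  refine ⟨fun h2 => h1.1 (by rw [h2]; rfl), ?_⟩
  rw [h1.2, hgy.2, hM']

/-- The decomposition group preserves the localized ring. -/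
theorem aut_CN {R : Subalgebra k Ω} {K : IntermediateField k Ω} {N : IntermediateField K Ω}
    (hB : Base v R K) {σ : N ≃ₐ[K] N} (hσ : σ ∈ decP hB N) {g : N} (hg : (g : Ω) ∈ CN v R N) :
    (σ g : Ω) ∈ CN v R N := by
  obtain ⟨a, ha, s, hs, hs0, hvs, hg'⟩ := hg
  have haN : a ∈ N := (mem_ON.1 ha).2
  have hsN : s ∈ N := (mem_ON.1 hs).2
  set a' : N := ⟨a, haN⟩ with ha'
  set s' : N := ⟨s, hsN⟩ with hs'
  have hgs : g = a' / s' := Subtype.ext hg'
  have hσs : ((σ s' : N) : Ω) ∈ ON R N := aut_ON hB σ hs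
  have h1 : ¬ VPos v (σ s' : Ω) := by
    rw [← hσ s' hs]
    exact not_vpos hs0 hvs
  obtain ⟨h2, h3⟩ := (vpos_or (ge_ON hB hσs)).resolve_left h1
  refine ⟨(σ a' : Ω), aut_ON hB σ ha, (σ s' : Ω), hσs, h2, h3, ?_⟩
  rw [hgs, map_div₀]
  push_cast
  rfl

/-- Row R8 + R9, given that `F.R` is integrally closed in `K`. -/
theorem exists_ord_of_base (h : Ctx0 k v n) (hn : n = r + D) {ι : Type} [Fintype ι]
    {E : IntermediateField k Ω} {x : Fin r → Ω} (hxE : ∀ i, x i ∈ E ∧ x i ≠ 0)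
    (hxi : LinearIndependent ℚ fun i => v (x i)) {b : ι → Ω} (hb : ∀ j, b j ∈ E)
    (hb1 : ∀ j, VPos v (b j - 1)) {y : Fin D → Ω} (hy : ∀ j, y j ∈ Wb k b) {s₀ : ℕ}
    (hG1 : GG1 k v x b y s₀) {F : FR k v D} (hF : FROf F x y) {K : IntermediateField k Ω}
    (hB : Base v F.R K) (hA : Ainf k v x b ≤ ICl v F.R E) (hK : FracIs F.R K)
    (N : IntermediateField K Ω) [FiniteDimensional K N] [IsGalois K N]
    (H : Subgroup (N ≃ₐ[K] N)) (hH : Pool.Agent.LU1.fixO K N H = E) {M₁ : ℕ}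
    {g : MvPolynomial (Fin D) k} (hg0 : g ≠ 0)
    (hg : g.totalDegree < M₁) {e : Ω} (he : e ∈ Is (k := k) v x b) {u : Ω}
    (hu : u ∈ Wb k b ^ M₁ * (Ab k b).toSubmodule) {G : N}
    (hG : (G : Ω) = MvPolynomial.aeval y g + e + u) :
    G ≠ 0 ∧ ∃ F₁ : FR k v D, F.Same F₁ ∧ F₁.R ≤ ICl v F.R (N.restrictScalars k) ∧
      ∃ M' < M₁, F₁.Ord ((cosetProd (ALL.decP v F.R K N) H G : N) : Ω) 0
        (H.relIndex (ALL.decP v F.R K N) * M') := by
  classical
  have hk := h.triv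
  have hres := res_of_ctx h
  have hEN : ∀ g ∈ E, g ∈ N := by
    intro g hg
    rw [← hH, Pool.Agent.LU1.mem_fixO] at hg
    obtain ⟨m, rfl, -⟩ := hg
    exact m.2
  obtain ⟨L₀, M', hM'M₁, hkey⟩ := exists_omegaL h hn (fun i => (hxE i).2) hxi hb1 hy hG1 hF hB hA
    hK hEN hg0 hg he hu hG
  rw [← decP_eq hB]
  set Dp := decP hB N with hDp
  obtain ⟨F₁, hF₁, hF₁R, hF₁N⟩ := exists_F1 F hB hk hres N
  have hxE' : ∀ i, x i ∈ E := fun i => (hxE i).1
  have hmxE : ∀ l, mx x l ∈ E := fun l => prod_mem fun i _ => zpow_mem (hxE' i) _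
  have hAbE : ∀ z ∈ Ab k b, z ∈ E := fun z hz => Pool.Agent.TA.Ab_le_field E hb hz
  have hWE : ∀ z ∈ Wb k b, z ∈ Ab k b := fun z hz => Pool.Agent.TA.Wb_le_Ab b hz
  -- `G` is in `A_∞`
  have hAbA : ∀ z ∈ Ab k b, z ∈ Ainf k v x b := fun z hz => Algebra.subset_adjoin (Or.inr hz)
  have hIsA : ∀ z ∈ Is (k := k) v x b, z ∈ Ainf k v x b := by
    intro z hz
    unfold Is at hz
    refine (Submodule.span_le.2 ?_ : _ ≤ (Ainf k v x b).toSubmodule) hz
    rintro _ ⟨c, hc, l, hl, rfl⟩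
    exact (Ainf k v x b).mul_mem (hAbA c hc) (Algebra.subset_adjoin (Or.inl ⟨l, hl.le, rfl⟩))
  have hyA : ∀ P : MvPolynomial (Fin D) k, MvPolynomial.aeval y P ∈ Ainf k v x b := by
    intro P
    induction P using MvPolynomial.induction_on with
    | C a => rw [MvPolynomial.aeval_C]; exact (Ainf k v x b).algebraMap_mem a
    | add p q hp hq => rw [map_add]; exact (Ainf k v x b).add_mem hp hq
    | mul_X p j hp =>
      rw [map_mul, MvPolynomial.aeval_X]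
      exact (Ainf k v x b).mul_mem hp (hAbA _ (hWE _ (hy j)))
  have hWA : Wb k b ≤ (Ainf k v x b).toSubmodule := fun z hz => hAbA z (hWE z hz)
  have hpow : ∀ m : ℕ, Wb k b ^ m ≤ (Ainf k v x b).toSubmodule := by
    intro m
    induction m with
    | zero =>
      rw [pow_zero, Submodule.one_le]
      exact (Ainf k v x b).one_mem
    | succ m ih =>
      rw [pow_succ]
      exact (mul_le_mul' ih hWA).trans (alg_mul_self _).le
  have huA : u ∈ Ainf k v x b := by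
    have h1 := (mul_le_mul' (hpow M₁) (show (Ab k b).toSubmodule ≤ (Ainf k v x b).toSubmodule from
      hAbA)).trans (alg_mul_self _).le
    exact h1 hu
  have hGA : (G : Ω) ∈ Ainf k v x b := by
    rw [hG]
    exact (Ainf k v x b).add_mem ((Ainf k v x b).add_mem (hyA g) (hIsA e he)) huA
  have hGI : (G : Ω) ∈ ICl v F.R E := hA hGA
  have hGC : (G : Ω) ∈ CN v F.R N := by
    rw [CN_eq]
    refine locv_mono ?_ hGI
    intro z hz
    exact ⟨hEN z hz.1, hz.2⟩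
  have hGE : (G : Ω) ∈ E := by
    obtain ⟨a, ha, c, hc, -, -, hac⟩ := hGI
    rw [hac]
    exact div_mem ha.1 hc.1
  have hGH : ∀ s ∈ H, s G = G := by
    intro s hs
    rw [← hH, Pool.Agent.LU1.mem_fixO] at hGE
    obtain ⟨m, hm, hms⟩ := hGE
    have : m = G := Subtype.ext hm
    rw [← this]
    exact hms s hs
  -- the product
  have : Fintype (Dp ⧸ H.subgroupOf Dp) := Fintype.ofFinite _
  set d : N := cosetProd Dp H G with hd
  have hdprod : d = ∏ q : Dp ⧸ H.subgroupOf Dp, ((q.out : Dp) : N ≃ₐ[K] N) G := by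
    rw [hd, cosetProd, finprod_eq_prod_of_fintype]
  have hcl : ∀ t t' : Dp, (QuotientGroup.mk t : Dp ⧸ H.subgroupOf Dp) = QuotientGroup.mk t' →
      ((t : Dp) : N ≃ₐ[K] N) G = ((t' : Dp) : N ≃ₐ[K] N) G := by
    intro t t' htt'
    rw [QuotientGroup.eq, Subgroup.mem_subgroupOf] at htt'
    have h1 := hGH _ htt'
    push_cast at h1
    rw [AlgEquiv.mul_apply] at h1
    have h2 := congrArg ((t : Dp) : N ≃ₐ[K] N) h1
    rw [← AlgEquiv.mul_apply, mul_inv_cancel, AlgEquiv.one_apply] at h2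
    exact h2.symm
  have hdfix : ∀ s ∈ Dp, s d = d := by
    intro s hs
    rw [hdprod, map_prod]
    refine Fintype.prod_equiv (MulAction.toPerm (⟨s, hs⟩ : Dp)) _ _ fun q => ?_
    have h1 := hcl (⟨s, hs⟩ * q.out) ((MulAction.toPerm (⟨s, hs⟩ : Dp) q)).out (by
      have h2 : (QuotientGroup.mk ((MulAction.toPerm (⟨s, hs⟩ : Dp) q)).out :
          Dp ⧸ H.subgroupOf Dp) = MulAction.toPerm (⟨s, hs⟩ : Dp) q := Quotient.out_eq _
      rw [h2]
      change _ = (⟨s, hs⟩ : Dp) • q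
      conv_rhs => rw [← Quotient.out_eq q]
      rfl)
    rw [← h1]
    rfl
  have hdC : (d : Ω) ∈ CN v F.R N := by
    rw [hdprod, coe_prod_N]
    exact (CN v F.R N).prod_mem fun q _ => aut_CN hB (q.out : Dp).2 hGC
  have hdO : (d : Ω) ∈ F₁.R := by
    rw [hF₁R, mem_O1]
    exact ⟨hdC, d, rfl, hdfix⟩
  set M : ℕ := H.relIndex Dp * M' with hM
  have hcard : (Finset.univ : Finset (Dp ⧸ H.subgroupOf Dp)).card = H.relIndex Dp := by
    rw [Finset.card_univ, ← Nat.card_eq_fintype_card]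
    rfl
  have hωd : ∀ ω : RVal Ω, (∀ σ ∈ Dp, σ G ≠ 0 ∧ ω (σ G : Ω) = M') → (d : Ω) ≠ 0 ∧
      ω (d : Ω) = M := by
    intro ω hω
    have hne : ∀ q : Dp ⧸ H.subgroupOf Dp,
        ((((q.out : Dp) : N ≃ₐ[K] N) G : N) : Ω) ≠ 0 := by
      intro q h1
      exact (hω _ (q.out : Dp).2).1 (Subtype.ext h1)
    rw [hdprod, coe_prod_N]
    refine ⟨Finset.prod_ne_zero_iff.2 fun q _ => hne q, ?_⟩
    rw [ω.map_prod _ _ fun q _ => hne q, Finset.sum_congr rfl fun q _ => (hω _ (q.out : Dp).2).2,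
      Finset.sum_const, hcard, hM, nsmul_eq_mul]
    push_cast
    rfl
  -- the expansion
  have hexp := expand F₁ hres M hdO
  obtain ⟨z, hz, Y, hY, hzY⟩ := Submodule.mem_sup.1 hexp
  obtain ⟨P', hP', X, hX, rfl⟩ := Submodule.mem_sup.1 hz
  obtain ⟨P, hPdeg, rfl⟩ := hP'
  obtain ⟨γ, hγ, hγ0, a, ha, rfl⟩ := hX
  rw [SetLike.mem_coe, MvPolynomial.mem_restrictTotalDegree] at hPdeg
  have hF₁y : F₁.y = y := by rw [hF₁.y_eq, hF.y_eq]
  have hγF : γ ∈ F.Γ := by rw [← hF₁.Γ_eq]; exact hγ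
  have hF₁χ : F₁.χ γ = F.χ γ := hF₁.χ_eq γ hγF
  set L : ℝ := max (max L₀ 1) ((M + 1 : ℕ) / γ) with hL
  obtain ⟨ω, hωk, hωχ, hωy, hωC, hωσ⟩ := hkey L ((le_max_left _ _).trans (le_max_left _ _))
    (lt_of_lt_of_le one_pos ((le_max_right _ _).trans (le_max_left _ _)))
  obtain ⟨hd0, hdval⟩ := hωd ω hωσ
  have hG0 : G ≠ 0 := by
    have h1 := (hωσ 1 Dp.one_mem).1
    rwa [AlgEquiv.one_apply] at h1
  have hCNN : ∀ g ∈ CN v F.R N, g ∈ N := by
    rintro _ ⟨a, ha, c, hc, -, -, rfl⟩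
    exact div_mem (mem_ON.1 ha).2 (mem_ON.1 hc).2
  have hRC : ∀ f ∈ F₁.R, f ∈ CN v F.R N := by
    intro f hf
    rw [hF₁R] at hf
    exact (mem_O1.1 hf).1
  have hRV : F₁.R.toSubmodule ≤ Vg hωk (1 : N ≃ₐ[K] N) 0 := by
    intro f hf
    exact ⟨⟨f, hCNN f (hRC f hf)⟩, rfl, hωC f (hRC f hf)⟩
  have hYV : F₁.YI (M + 1) ≤ Vg hωk (1 : N ≃ₐ[K] N) (M + 1 : ℕ) := by
    have h1 : Submodule.span k (Set.range F₁.y) ≤ Vg hωk (1 : N ≃ₐ[K] N) 1 := by
      rw [Submodule.span_le]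
      rintro _ ⟨j, rfl⟩
      refine ⟨⟨F₁.y j, hCNN _ (hRC _ (F₁.y_mem j))⟩, rfl, ?_⟩
      intro _
      have h2 := (hωy (MvPolynomial.X j) (MvPolynomial.X_ne_zero _)).2
      rw [MvPolynomial.aeval_X] at h2
      change (1 : ℝ) ≤ ω (F₁.y j)
      rw [hF₁y, h2]
      obtain ⟨d', hd', hd''⟩ := exists_mw (k := k) (fun _ => (1 : ℝ))
        (MvPolynomial.X_ne_zero (R := k) (j : Fin D))
      rw [MvPolynomial.support_X, Finset.mem_singleton] at hd'
      rw [hd'', hd', Finsupp.weight_single, one_smul]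
    have h2 := mul_le_Vg (pow_le_Vg h1 (M + 1)) hRV
    rw [mul_one, add_zero] at h2
    exact h2
  have hYge : ω.Ge (M + 1) Y := by
    obtain ⟨m, hm, hm'⟩ := hYV hY
    rw [AlgEquiv.one_apply, hm] at hm'
    exact_mod_cast hm'
  have hXge : ω.Ge (M + 1) (F₁.χ γ * a) := by
    have h1 : ω.Ge (M + 1) (F₁.χ γ) := by
      intro _
      rw [hF₁χ, hωχ γ hγF]
      have h2 : ((M + 1 : ℕ) : ℝ) / γ ≤ L := le_max_right _ _
      rw [div_le_iff₀ hγ0] at h2
      exact_mod_cast h2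
    have h2 := h1.mul (hωC a (hRC a ha))
    rwa [add_zero] at h2
  have hdP : ω.Ge (M + 1) ((d : Ω) - MvPolynomial.aeval y P) := by
    have h1 : (d : Ω) - MvPolynomial.aeval y P = F₁.χ γ * a + Y := by
      rw [← hzY, ← hF₁y]
      change MvPolynomial.aeval F₁.y P + F₁.χ γ * a + Y - MvPolynomial.aeval F₁.y P = _
      ring
    rw [h1]
    exact hXge.add hYge
  have hPv := val_of_sub (ω := ω) (c := (M : ℝ) + 1) (g := (d : Ω))
    (f := MvPolynomial.aeval y P) hd0 (by rw [hdval]; linarith) (by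
      have h1 := hdP.neg
      rwa [neg_sub] at h1)
  have hP0 : P ≠ 0 := by
    rintro rfl
    exact hPv.1 (map_zero _)
  obtain ⟨m, -, hm, hmlow⟩ := exists_low hP0
  have hmM : m = M := by
    have h1 := hPv.2
    rw [hdval, (hωy P hP0).2, hm] at h1
    exact_mod_cast h1
  have hPhom : P.IsHomogeneous M := by
    intro d' hd'
    rw [Pi.one_def, ← Finsupp.degree_eq_weight_one]
    have hd'' := MvPolynomial.mem_support_iff.2 hd'
    refine le_antisymm ?_ (hmM ▸ hmlow d' hd'')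
    have h1 := MvPolynomial.le_totalDegree hd''
    rw [Finsupp.sum_fintype _ _ (by simp)] at h1
    rw [Finsupp.degree_eq_sum]
    exact h1.trans hPdeg
  have hχ0 : F₁.χ 0 = 1 := by
    have h1 := F₁.χ_add 0 F₁.Γ.zero_mem 0 F₁.Γ.zero_mem
    rw [add_zero] at h1
    exact (mul_right_cancel₀ (F₁.χ_ne 0 F₁.Γ.zero_mem) (by rw [one_mul]; exact h1)).symm
  refine ⟨hG0, F₁, hF₁, hF₁N, M', hM'M₁, F₁.Γ.zero_mem, P, hPhom, hP0, Y, hY, γ, hγ, hγ0, a, ha,
    ?_⟩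
  rw [hχ0, one_mul, ← hzY]
  change MvPolynomial.aeval F₁.y P + F₁.χ γ * a + Y = _
  ring

end Pool.Agent.ALL5
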