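import Pool.Agent.Lib.TA.Ord
import Pool.Agent.Lib.TA.Cone

/-!
# Monomial valuations with real weights of a purely transcendental extension
-/

set_option autoImplicit false

namespace Pool.Agent.ALL5

open Pool.Agent.H15JM (RVal)
open Pool.Agent.LU1 (VPos)
open Pool.Agent.TA (mx toAdj coe_toAdj toAdj_injective exists_frac exists_rval_fraction)

universe u

section Weight

variable {k σ : Type*} [Field k]

/-- The smallest weight of a monomial of `P`. -/
noncomputable def mw (w : σ → ℝ) (P : MvPolynomial σ k) : ℝ :=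
  open Classical in
  if h : P = 0 then 0 else P.support.inf' (MvPolynomial.support_nonempty.2 h) (Finsupp.weight w)

theorem mw_le (w : σ → ℝ) {P : MvPolynomial σ k} {d : σ →₀ ℕ} (hd : d ∈ P.support) :
    mw w P ≤ Finsupp.weight w d := by
  have h : P ≠ 0 := by rintro rfl; simp at hd
  rw [mw, dif_neg h]
  exact Finset.inf'_le _ hd

theorem exists_mw (w : σ → ℝ) {P : MvPolynomial σ k} (h : P ≠ 0) :
    ∃ d ∈ P.support, mw w P = Finsupp.weight w d := by
  rw [mw, dif_neg h]
  exact Finset.exists_mem_eq_inf' _ _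

theorem le_mw (w : σ → ℝ) {P : MvPolynomial σ k} (h : P ≠ 0) {c : ℝ}
    (hc : ∀ d ∈ P.support, c ≤ Finsupp.weight w d) : c ≤ mw w P := by
  obtain ⟨d, hd, hd'⟩ := exists_mw w h
  rw [hd']
  exact hc d hd

theorem mw_mul (w : σ → ℝ) {P Q : MvPolynomial σ k} (hP : P ≠ 0) (hQ : Q ≠ 0) :
    mw w (P * Q) = mw w P + mw w Q := by
  classical
  set a := mw w P with ha
  set b := mw w Q with hb
  have hge : ∀ d ∈ (P * Q).support, a + b ≤ Finsupp.weight w d := by
    intro d hd
    have h1 := MvPolynomial.support_mul P Q hd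
    obtain ⟨d₁, h₁, d₂, h₂, rfl⟩ := Finset.mem_add.1 h1
    rw [map_add]
    exact add_le_add (mw_le w h₁) (mw_le w h₂)
  refine le_antisymm ?_ (le_mw w (mul_ne_zero hP hQ) hge)
  set P₀ := MvPolynomial.weightedHomogeneousComponent w a P with hP₀
  set Q₀ := MvPolynomial.weightedHomogeneousComponent w b Q with hQ₀
  have hP₀0 : P₀ ≠ 0 := by
    obtain ⟨d, hd, hd'⟩ := exists_mw w hP
    intro h
    have h1 := congrArg (MvPolynomial.coeff d) h
    rw [hP₀, MvPolynomial.coeff_weightedHomogeneousComponent, if_pos (by rw [ha, hd'])] at h1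
    exact MvPolynomial.mem_support_iff.1 hd h1
  have hQ₀0 : Q₀ ≠ 0 := by
    obtain ⟨d, hd, hd'⟩ := exists_mw w hQ
    intro h
    have h1 := congrArg (MvPolynomial.coeff d) h
    rw [hQ₀, MvPolynomial.coeff_weightedHomogeneousComponent, if_pos (by rw [hb, hd'])] at h1
    exact MvPolynomial.mem_support_iff.1 hd h1
  have hPr : ∀ d ∈ (P - P₀).support, a < Finsupp.weight w d := by
    intro d hd
    have h1 := MvPolynomial.mem_support_iff.1 hd
    rw [MvPolynomial.coeff_sub, hP₀, MvPolynomial.coeff_weightedHomogeneousComponent] at h1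
    split_ifs at h1 with h2
    · exact absurd (sub_self _) h1
    · rw [sub_zero] at h1
      exact lt_of_le_of_ne (mw_le w (MvPolynomial.mem_support_iff.2 h1)) (Ne.symm h2)
  have hQr : ∀ d ∈ (Q - Q₀).support, b < Finsupp.weight w d := by
    intro d hd
    have h1 := MvPolynomial.mem_support_iff.1 hd
    rw [MvPolynomial.coeff_sub, hQ₀, MvPolynomial.coeff_weightedHomogeneousComponent] at h1
    split_ifs at h1 with h2
    · exact absurd (sub_self _) h1
    · rw [sub_zero] at h1
      exact lt_of_le_of_ne (mw_le w (MvPolynomial.mem_support_iff.2 h1)) (Ne.symm h2)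
  have hP₀w : ∀ d ∈ P₀.support, Finsupp.weight w d = a := by
    intro d hd
    exact MvPolynomial.weightedHomogeneousComponent_isWeightedHomogeneous a P
      (MvPolynomial.mem_support_iff.1 hd)
  obtain ⟨d, hd⟩ := MvPolynomial.support_nonempty.2 (mul_ne_zero hP₀0 hQ₀0)
  have hdw : Finsupp.weight w d = a + b :=
    (MvPolynomial.IsWeightedHomogeneous.mul
      (MvPolynomial.weightedHomogeneousComponent_isWeightedHomogeneous a P)
      (MvPolynomial.weightedHomogeneousComponent_isWeightedHomogeneous b Q))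
      (MvPolynomial.mem_support_iff.1 hd)
  have hd' : d ∈ (P * Q).support := by
    rw [MvPolynomial.mem_support_iff]
    have h1 : P * Q = P₀ * Q₀ + P₀ * (Q - Q₀) + (P - P₀) * Q := by ring
    have h2 : MvPolynomial.coeff d (P₀ * (Q - Q₀)) = 0 := by
      by_contra hne
      have h3 := MvPolynomial.support_mul _ _ (MvPolynomial.mem_support_iff.2 hne)
      obtain ⟨d₁, h₁, d₂, h₂, rfl⟩ := Finset.mem_add.1 h3
      rw [map_add, hP₀w d₁ h₁] at hdw
      have := hQr d₂ h₂
      linarith
    have h3 : MvPolynomial.coeff d ((P - P₀) * Q) = 0 := by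
      by_contra hne
      have h3 := MvPolynomial.support_mul _ _ (MvPolynomial.mem_support_iff.2 hne)
      obtain ⟨d₁, h₁, d₂, h₂, rfl⟩ := Finset.mem_add.1 h3
      rw [map_add] at hdw
      have h4 := hPr d₁ h₁
      have h5 := mw_le w h₂
      linarith
    rw [h1, MvPolynomial.coeff_add, MvPolynomial.coeff_add, h2, h3, add_zero, add_zero]
    exact MvPolynomial.mem_support_iff.1 hd
  rw [← hdw]
  exact mw_le w hd'

theorem mw_add (w : σ → ℝ) {P Q : MvPolynomial σ k} (_hP : P ≠ 0) (_hQ : Q ≠ 0)
    (hPQ : P + Q ≠ 0) : min (mw w P) (mw w Q) ≤ mw w (P + Q) := by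
  classical
  refine le_mw w hPQ fun d hd => ?_
  rcases Finset.mem_union.1 (MvPolynomial.support_add hd) with h | h
  · exact (min_le_left _ _).trans (mw_le w h)
  · exact (min_le_right _ _).trans (mw_le w h)

end Weight

section

variable {k Ω : Type u} [Field k] [Field Ω] [Algebra k Ω] {σ : Type*}

/-- The monomial valuation with weights `w` of `k(u)`. -/
theorem exists_mon {u : σ → Ω} (hi : AlgebraicIndependent k u) {K : IntermediateField k Ω}
    (hu : ∀ i, u i ∈ K) (hK : K = IntermediateField.adjoin k (Set.range u)) (w : σ → ℝ) :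
    ∃ μ : RVal K, ∀ P : MvPolynomial σ k, P ≠ 0 → μ (toAdj u K hu P) = mw w P := by
  refine exists_rval_fraction ((toAdj (k := k) u K hu) : MvPolynomial σ k →+* K)
    (toAdj_injective hi K hu) ?_ (mw w) (fun a b ha hb => mw_mul w ha hb)
    (fun a b ha hb hab => mw_add w ha hb hab)
  intro z
  obtain ⟨a, b, hb, hz⟩ := exists_frac u K hu hK z
  refine ⟨a, b, ?_, hz⟩
  rintro rfl
  exact hb (map_zero _)

end

end Pool.Agent.ALL5
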