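import Pool.Agent.Lib.ALL_h5.Omega
import Pool.Agent.Lib.ALL_h5.Core

/-!
# The order of the product of the conjugates of `G`

Row R8 + R9 of `allx_XStmt.lean`.
-/

set_option autoImplicit false

open Polynomial

namespace Pool.Agent.ALL5

open Pool.Agent.H15JM (RVal)
open Pool.Agent.LU1 (VPos locv locv_inv locv_nonneg le_locv FracIs)
open Pool.Agent.LU3 (Ctx0)
open Pool.Agent.TA (mx toAdj coe_toAdj toAdj_injective exists_frac Ab Wb Is Vg mem_Vg Vg_mono
  Vg_mul mem_Vg_of_F mul_le_Vg pow_le_Vg CtxR)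
open Pool.Agent.ALL (Oinf Ainf FROf FR ICl icl cosetProd GG1)

universe u

section Rename

variable {k σ τ : Type*} [Field k]

theorem mw_rename (f : σ → τ) (hf : Function.Injective f) (w : τ → ℝ) (P : MvPolynomial σ k)
    (hP : P ≠ 0) : mw w (MvPolynomial.rename f P) = mw (w ∘ f) P := by
  classical
  have hP' : MvPolynomial.rename f P ≠ 0 := by
    rwa [Ne, map_eq_zero_iff _ (MvPolynomial.rename_injective f hf)]
  have hw : ∀ d : σ →₀ ℕ, Finsupp.weight w (Finsupp.mapDomain f d) =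
      Finsupp.weight (w ∘ f) d := by
    intro d
    rw [Finsupp.weight_apply, Finsupp.weight_apply, Finsupp.sum_mapDomain_index (by simp)
      (by intro a b c; rw [add_smul])]
    rfl
  have hs := MvPolynomial.support_rename_of_injective (p := P) hf
  refine le_antisymm ?_ ?_
  · obtain ⟨d, hd, hd'⟩ := exists_mw (w ∘ f) hP
    rw [hd', ← hw]
    refine mw_le w ?_
    rw [hs]
    exact Finset.mem_image_of_mem _ hd
  · obtain ⟨d, hd, hd'⟩ := exists_mw w hP'
    rw [hd']
    rw [hs, Finset.mem_image] at hd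
    obtain ⟨d₀, hd₀, rfl⟩ := hd
    rw [hw]
    exact mw_le _ hd₀

theorem weight_one_real {D : ℕ} (d : Fin D →₀ ℕ) :
    Finsupp.weight (fun _ => (1 : ℝ)) d = (Finsupp.degree d : ℕ) := by
  rw [Finsupp.weight_apply, Finsupp.sum_fintype _ _ (by simp), Finsupp.degree_eq_sum]
  push_cast
  exact Finset.sum_congr rfl fun i _ => by simp

/-- The lowest degree of a polynomial. -/
theorem exists_low {D : ℕ} {P : MvPolynomial (Fin D) k} (hP : P ≠ 0) :
    ∃ m : ℕ, m ≤ P.totalDegree ∧ mw (fun _ => (1 : ℝ)) P = m ∧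
      ∀ d ∈ P.support, m ≤ Finsupp.degree d := by
  obtain ⟨d, hd, hd'⟩ := exists_mw (fun _ => (1 : ℝ)) hP
  refine ⟨Finsupp.degree d, ?_, ?_, ?_⟩
  · rw [Finsupp.degree_eq_sum]
    have h1 := MvPolynomial.le_totalDegree hd
    rwa [Finsupp.sum_fintype _ _ (by simp)] at h1
  · rw [hd', weight_one_real]
  · intro d₂ hd₂
    have h1 := mw_le (fun _ => (1 : ℝ)) hd₂
    rw [hd', weight_one_real, weight_one_real] at h1
    exact_mod_cast h1

end Rename

variable {k Ω : Type u} [Field k] [Field Ω] [Algebra k Ω] {v : RVal Ω} {n r D : ℕ}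

section Expand

/-- The elements `χ(γ) a`, `γ > 0`. -/
def Xp (F : FR k v D) : Submodule k Ω where
  carrier := {g | ∃ γ ∈ F.Γ, 0 < γ ∧ ∃ a ∈ F.R, g = F.χ γ * a}
  add_mem' := by
    rintro _ _ ⟨γ, hγ, hγ0, a, ha, rfl⟩ ⟨δ, hδ, hδ0, c, hc, rfl⟩
    have hmin : min γ δ ∈ F.Γ := by
      rcases min_choice γ δ with h | h <;> rw [h] <;> assumption
    obtain ⟨a', ha', haa'⟩ := gen_shrink F le_rfl hγ hmin (min_le_left γ δ) ha
    obtain ⟨c', hc', hcc'⟩ := gen_shrink F le_rfl hδ hmin (min_le_right γ δ) hc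
    refine ⟨min γ δ, hmin, lt_min hγ0 hδ0, a' + c', F.R.add_mem ha' hc', ?_⟩
    rw [haa', hcc', mul_add]
  zero_mem' := by
    obtain ⟨γ, hγ, hγ0, -⟩ := F.gen 0 F.R.zero_mem Pool.Agent.LU1.VPos.zero
    exact ⟨γ, hγ, hγ0, 0, F.R.zero_mem, by rw [mul_zero]⟩
  smul_mem' := by
    rintro c _ ⟨γ, hγ, hγ0, a, ha, rfl⟩
    exact ⟨γ, hγ, hγ0, c • a, F.R.smul_mem ha c, by rw [mul_smul_comm]⟩

theorem R_le (F : FR k v D)
    (hres : ∀ g : Ω, v.Ge 0 g → ∃ c : k, VPos v (g - algebraMap k Ω c)) :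
    F.R.toSubmodule ≤ 1 ⊔ Xp F ⊔ Submodule.span k (Set.range F.y) * F.R.toSubmodule := by
  intro f hf
  obtain ⟨c, hc⟩ := hres f (F.nonneg f hf)
  obtain ⟨γ, hγ, hγ0, a, ha, b, hb, heq⟩ := F.gen _ (F.R.sub_mem hf (F.R.algebraMap_mem c)) hc
  have h1 : f = algebraMap k Ω c + F.χ γ * a + ∑ i, F.y i * b i := by
    rw [add_assoc, ← heq]
    ring
  rw [h1]
  refine Submodule.add_mem_sup (Submodule.add_mem_sup ?_ ⟨γ, hγ, hγ0, a, ha, rfl⟩) ?_
  · exact Submodule.algebraMap_mem c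
  · exact Submodule.sum_mem _ fun i _ => Submodule.mul_mem_mul
      (Submodule.subset_span ⟨i, rfl⟩) (hb i)

theorem mul_Xp (F : FR k v D) {f g : Ω} (hf : f ∈ F.R) (hg : g ∈ Xp F) : f * g ∈ Xp F := by
  obtain ⟨γ, hγ, hγ0, a, ha, rfl⟩ := hg
  exact ⟨γ, hγ, hγ0, f * a, F.R.mul_mem hf ha, by ring⟩

/-- The polynomials of degree at most `M` in `y`. -/
theorem pow_span_le_pol (F : FR k v D) (M : ℕ) :
    Submodule.span k (Set.range F.y) ^ M ≤
      (MvPolynomial.restrictTotalDegree (Fin D) k M).map (MvPolynomial.aeval F.y).toLinearMap := by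
  induction M with
  | zero =>
    rw [pow_zero, Submodule.one_le]
    refine ⟨1, ?_, by simp⟩
    rw [SetLike.mem_coe, MvPolynomial.mem_restrictTotalDegree]
    simp
  | succ M ih =>
    rw [pow_succ, Submodule.mul_le]
    intro g hg z hz
    obtain ⟨P, hP, rfl⟩ := ih hg
    have h1 : ∃ Q : MvPolynomial (Fin D) k, Q.totalDegree ≤ 1 ∧ MvPolynomial.aeval F.y Q = z := by
      induction hz using Submodule.span_induction with
      | mem z hz =>
        obtain ⟨i, rfl⟩ := hz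
        exact ⟨MvPolynomial.X i, (MvPolynomial.totalDegree_X i).le, MvPolynomial.aeval_X _ _⟩
      | zero => exact ⟨0, by simp, map_zero _⟩
      | add z z' _ _ hz hz' =>
        obtain ⟨Q, hQ, rfl⟩ := hz
        obtain ⟨Q', hQ', rfl⟩ := hz'
        exact ⟨Q + Q', (MvPolynomial.totalDegree_add _ _).trans (max_le hQ hQ'), map_add _ _ _⟩
      | smul c z _ hz =>
        obtain ⟨Q, hQ, rfl⟩ := hz
        exact ⟨c • Q, (MvPolynomial.totalDegree_smul_le c Q).trans hQ, map_smul _ _ _⟩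
    obtain ⟨Q, hQ, rfl⟩ := h1
    refine ⟨P * Q, ?_, by simp⟩
    rw [SetLike.mem_coe, MvPolynomial.mem_restrictTotalDegree] at hP ⊢
    exact (MvPolynomial.totalDegree_mul P Q).trans (add_le_add hP hQ)

/-- The expansion up to order `M`. -/
theorem expand (F : FR k v D)
    (hres : ∀ g : Ω, v.Ge 0 g → ∃ c : k, VPos v (g - algebraMap k Ω c)) (M : ℕ) :
    F.R.toSubmodule ≤
      (MvPolynomial.restrictTotalDegree (Fin D) k M).map (MvPolynomial.aeval F.y).toLinearMap ⊔
        Xp F ⊔ F.YI (M + 1) := by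
  set Y := Submodule.span k (Set.range F.y) with hY
  have hYR : ∀ m, Y ^ m ≤ F.R.toSubmodule := by
    have h1 : Y ≤ F.R.toSubmodule := by
      rw [hY, Submodule.span_le]
      rintro _ ⟨i, rfl⟩
      exact F.y_mem i
    intro m
    induction m with
    | zero =>
      rw [pow_zero, Submodule.one_le]
      exact F.R.one_mem
    | succ m ih =>
      rw [pow_succ]
      exact (mul_le_mul' ih h1).trans (alg_mul_self F.R).le
  have hstep : ∀ m, F.YI m ≤ Y ^ m ⊔ Xp F ⊔ F.YI (m + 1) := by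
    intro m
    have h1 : F.YI m ≤ Y ^ m * (1 ⊔ Xp F ⊔ Y * F.R.toSubmodule) :=
      mul_le_mul' le_rfl (R_le F hres)
    refine h1.trans ?_
    rw [Submodule.mul_sup, Submodule.mul_sup, mul_one, ← mul_assoc, ← pow_succ]
    refine sup_le_sup (sup_le_sup le_rfl ?_) le_rfl
    rw [Submodule.mul_le]
    intro f hf g hg
    exact mul_Xp F (hYR m hf) hg
  have hmono : ∀ m m' : ℕ, m ≤ m' →
      (MvPolynomial.restrictTotalDegree (Fin D) k m).map (MvPolynomial.aeval F.y).toLinearMap ≤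
      (MvPolynomial.restrictTotalDegree (Fin D) k m').map (MvPolynomial.aeval F.y).toLinearMap := by
    intro m m' hm
    refine Submodule.map_mono ?_
    intro P hP
    rw [MvPolynomial.mem_restrictTotalDegree] at hP ⊢
    exact hP.trans hm
  have h0 : F.R.toSubmodule = F.YI 0 := by
    rw [FR.YI, pow_zero, one_mul]
  induction M with
  | zero =>
    rw [h0]
    refine (hstep 0).trans (sup_le_sup (sup_le_sup ?_ le_rfl) le_rfl)
    exact pow_span_le_pol F 0
  | succ M ih =>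
    refine ih.trans (sup_le (sup_le ?_ ?_) ?_)
    · exact (hmono M (M + 1) (Nat.le_succ M)).trans (le_sup_left.trans le_sup_left)
    · exact le_sup_right.trans le_sup_left
    · refine (hstep (M + 1)).trans (sup_le_sup (sup_le_sup ?_ le_rfl) le_rfl)
      exact pow_span_le_pol F (M + 1)

end Expand

end Pool.Agent.ALL5
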